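import Pool.Agent.Lib.MP_87d05f_lc.DI.StmM

set_option autoImplicit false

/-!
# Piece d0: a cut with at least half of the edges
-/

namespace Pool.Agent.Lib.MP_87d05f_lc.DI

open Finset

/-- both ends are smaller than `N` -/
private def d0_P (N : ℕ) (e : ℕ × ℕ) : Bool := decide (e.1 < N ∧ e.2 < N)

private lemma d0_old (α : ℕ → Bool) (N : ℕ) (b : Bool) (e : ℕ × ℕ) (h : d0_P N e = true) :
    cutE (Function.update α N b) e = cutE α e := by
  have h1 : e.1 < N ∧ e.2 < N := by simpa [d0_P] using h
  unfold cutE
  rw [Function.update_of_ne h1.1.ne, Function.update_of_ne h1.2.ne]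

private lemma d0_new (α : ℕ → Bool) (N : ℕ) (e : ℕ × ℕ) (hne : e.1 ≠ e.2)
    (h1 : e.1 < N + 1) (h2 : e.2 < N + 1) (h : d0_P N e = false) :
    cutE (Function.update α N true) e = !cutE (Function.update α N false) e := by
  have h3 : ¬ (e.1 < N ∧ e.2 < N) := by simpa [d0_P] using h
  unfold cutE
  by_cases h4 : e.1 = N
  · have h5 : e.2 ≠ N := fun h6 => hne (h4.trans h6.symm)
    rw [h4, Function.update_self, Function.update_self, Function.update_of_ne h5,
      Function.update_of_ne h5]
    cases α e.2 <;> rfl
  · have h5 : e.2 = N := by omega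
    rw [h5, Function.update_self, Function.update_self, Function.update_of_ne h4,
      Function.update_of_ne h4]
    cases α e.1 <;> rfl

private lemma d0_count (α : ℕ → Bool) (N : ℕ) (E : List (ℕ × ℕ))
    (hE : ∀ e ∈ E, e.1 ≠ e.2 ∧ e.1 < N + 1 ∧ e.2 < N + 1) :
    E.countP (cutE (Function.update α N true)) + E.countP (cutE (Function.update α N false)) +
      (E.filter (d0_P N)).length = 2 * (E.filter (d0_P N)).countP (cutE α) + E.length := by
  induction E with
  | nil => simp
  | cons e E ih =>
    have ih' := ih (fun e' he' => hE e' (List.mem_cons_of_mem _ he'))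
    obtain ⟨h1, h2, h3⟩ := hE e List.mem_cons_self
    rw [List.countP_cons, List.countP_cons, List.length_cons]
    by_cases hP : d0_P N e = true
    · rw [List.filter_cons_of_pos hP, List.countP_cons, List.length_cons,
        d0_old α N true e hP, d0_old α N false e hP]
      split_ifs <;> omega
    · have hP' : d0_P N e = false := by simpa using hP
      rw [List.filter_cons_of_neg hP, d0_new α N e h1 h2 h3 hP']
      cases cutE (Function.update α N false) e
      · simp
        omega
      · simp
        omega

private lemma d0_main (N : ℕ) : ∀ E : List (ℕ × ℕ),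
    (∀ e ∈ E, e.1 ≠ e.2 ∧ e.1 < N ∧ e.2 < N) →
    ∃ α : ℕ → Bool, E.length ≤ 2 * E.countP (cutE α) := by
  induction N with
  | zero =>
    intro E hE
    have h : E = [] := by
      rw [List.eq_nil_iff_forall_not_mem]
      intro e he
      have := (hE e he).2.1
      omega
    exact ⟨fun _ => false, by rw [h]; simp⟩
  | succ N ih =>
    intro E hE
    obtain ⟨α, hα⟩ := ih (E.filter (d0_P N)) (by
      intro e he
      rw [List.mem_filter] at he
      have h1 : e.1 < N ∧ e.2 < N := by simpa [d0_P] using he.2
      exact ⟨(hE e he.1).1, h1⟩)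
    have h1 := d0_count α N E hE
    by_cases h2 : E.length ≤ 2 * E.countP (cutE (Function.update α N true))
    · exact ⟨_, h2⟩
    · exact ⟨Function.update α N false, by omega⟩

theorem d0 : D0S := by
  intro E hE
  obtain ⟨N, hN⟩ : ∃ N : ℕ, ∀ e ∈ E, e.1 < N ∧ e.2 < N := by
    clear hE
    induction E with
    | nil => exact ⟨0, by simp⟩
    | cons e E ih =>
      obtain ⟨N, hN⟩ := ih
      refine ⟨N + e.1 + e.2 + 1, ?_⟩
      intro e' he'
      rcases List.mem_cons.1 he' with rfl | h
      · exact ⟨by omega, by omega⟩
      · have := hN e' h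
        exact ⟨by omega, by omega⟩
  exact d0_main N E (fun e he => ⟨hE e he, hN e he⟩)

end Pool.Agent.Lib.MP_87d05f_lc.DI
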