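import Pool.Agent.Lib.MP_87d05f_lc.DI.StmM

set_option autoImplicit false

/-!
# DICHOTOMY, piece d1: the reduction from the maximum cut to a language with an exact gadget
-/

namespace Pool.Agent.Lib.MP_87d05f_lc.DI

open Pool.Agent.PolyTime Function Turing

/-- the name of a slot in the block of the edge with words `c` and index `n` -/
def d1_nm (n : ℕ) (c : List (List Bool)) (q : ℕ × ℕ) : List Bool :=
  bif decide (q.1 = 0) then nb [] (3 * q.2) else
  bif decide (q.1 = 1) then nb (c.headD []) 1 else
  bif decide (q.1 = 2) then nb (c.tail.headD []) 1 else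
  nb (List.replicate n false) (3 * q.2 + 2)

theorem d1_nm_end (n : ℕ) (c : List (List Bool)) (q : ℕ × ℕ) : ∃ u, d1_nm n c q = u ++ [true] := by
  unfold d1_nm
  rcases decide (q.1 = 0) with _ | _ <;> rcases decide (q.1 = 1) with _ | _ <;>
    rcases decide (q.1 = 2) with _ | _ <;> exact nb_end _ _

theorem d1_bits (n : ℕ) (c : List (List Bool)) (q : ℕ × ℕ) :
    Nat.bits (unbits (d1_nm n c q)) = d1_nm n c q := by
  obtain ⟨u, hu⟩ := d1_nm_end n c q
  rw [hu, bits_unbits]

theorem d1_nm_ptime {α : Type} [SCode α] {n : α → ℕ} {c : α → List (List Bool)}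
    {q : α → ℕ × ℕ} (hn : PTime n) (hc : PTime c) (hq : PTime q) :
    PTime (fun a => d1_nm (n a) (c a) (q a)) := by
  unfold d1_nm
  have h1 : PTime (fun a => (q a).1) := PTime.fst.comp hq
  have h2 : PTime (fun a => (q a).2) := PTime.snd.comp hq
  refine PTime.cond (PTime.nat_eq h1 (PTime.const 0)) (nb_ptime (PTime.const _)
    (PTime.mul (PTime.const 3) h2)) (PTime.cond (PTime.nat_eq h1 (PTime.const 1))
      (nb_ptime (PTime.headD hc (PTime.const [])) (PTime.const 1))
      (PTime.cond (PTime.nat_eq h1 (PTime.const 2))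
        (nb_ptime (PTime.headD (PTime.tail hc) (PTime.const [])) (PTime.const 1)) ?_))
  exact nb_ptime (PTime.replicate hn (PTime.const false))
    (PTime.succ (PTime.succ (PTime.mul (PTime.const 3) h2)))

/-- values of the names -/
theorem d1_name_val {D : Type} (A : List Bool → D) (n : ℕ) (c : List (List Bool))
    (q : ℕ × ℕ) :
    A (d1_nm n c q) = slE (fun t => A (nb [] (3 * t))) (A (nb (c.headD []) 1))
      (A (nb (c.tail.headD []) 1)) (fun t => A (nb (List.replicate n false) (3 * t + 2))) q := by
  unfold d1_nm slE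
  by_cases h0 : q.1 = 0
  · rw [decide_eq_true h0, if_pos h0]
    rfl
  · rw [decide_eq_false h0, if_neg h0]
    by_cases h1 : q.1 = 1
    · rw [decide_eq_true h1, if_pos h1]
      rfl
    · rw [decide_eq_false h1, if_neg h1]
      by_cases h2 : q.1 = 2
      · rw [decide_eq_true h2, if_pos h2]
        rfl
      · rw [decide_eq_false h2, if_neg h2]
        rfl

theorem d1_mkA {D : Type} (G : ℕ → D) (V : List Bool → D) (C : ℕ → ℕ → D) (n : ℕ)
    (c : List (List Bool)) (q : ℕ × ℕ) :
    mkA G (fun w _ => V w) C (d1_nm n c q) =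
      slE G (V (c.headD [])) (V (c.tail.headD [])) (C n) q := by
  rw [d1_name_val (mkA G (fun w _ => V w) C) n c q]
  have h0 : ∀ t, mkA G (fun w _ => V w) C (nb [] (3 * t)) = G t := by
    intro t
    unfold mkA
    rw [unb_nb]
    simp only
    rw [if_pos (by omega), Nat.mul_div_cancel_left _ (by norm_num)]
  have h1 : ∀ w, mkA G (fun w _ => V w) C (nb w 1) = V w := by
    intro w
    unfold mkA
    rw [unb_nb]
    rfl
  have h2 : ∀ t, mkA G (fun w _ => V w) C (nb (List.replicate n false) (3 * t + 2)) = C n t := by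
    intro t
    unfold mkA
    rw [unb_nb]
    simp only [List.length_replicate]
    rw [if_neg (by omega), if_neg (by omega), show (3 * t + 2) / 3 = t by omega]
  simp only [h0, h1, h2]

section temp

variable {g d : ℕ} {ar : Fin g → ℕ}

/-- a constraint with slots -/
abbrev d1_TC (ar : Fin g → ℕ) : Type := (i : Fin g) × (Fin (ar i) → ℕ × ℕ)

/-- the words of a template -/
def d1_wT (T : List (d1_TC ar)) : List (List Bool × List (ℕ × ℕ)) :=
  T.map (fun t => (Nat.bits (t.1 : ℕ), List.ofFn t.2))

/-- the block of an edge, in words -/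
def d1_blkW (T : List (List Bool × List (ℕ × ℕ))) (p : List (List Bool) × ℕ) :
    List (List (List Bool)) :=
  T.map (fun e => e.1 :: e.2.map (fun q => d1_nm p.2 p.1 q))

/-- the block of an edge -/
def d1_blk (T : List (d1_TC ar)) (p : List (List Bool) × ℕ) : List (Con ar) :=
  T.map (fun t => ⟨t.1, fun j => unbits (d1_nm p.2 p.1 (t.2 j))⟩)

theorem d1_blk_word (T : List (d1_TC ar)) (p : List (List Bool) × ℕ) :
    (d1_blk T p).map wordC = d1_blkW (d1_wT T) p := by
  unfold d1_blk d1_blkW d1_wT
  rw [List.map_map, List.map_map]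
  refine List.map_congr_left fun t _ => ?_
  simp only [Function.comp, wordC]
  rw [List.map_ofFn, List.map_ofFn]
  congr 2
  funext j
  simp only [Function.comp, d1_bits]

/-- the reduction -/
def d1_red (T : List (d1_TC ar)) (E : List (ℕ × ℕ)) : List (Con ar) :=
  (E.map wordE).zipIdx.flatMap (d1_blk T)

/-- the reduction, in words -/
def d1_redW (T : List (List Bool × List (ℕ × ℕ))) (G : List (List (List Bool))) :
    List (List (List Bool)) :=
  G.zipIdx.flatMap (d1_blkW T)

theorem d1_red_word (T : List (d1_TC ar)) (E : List (ℕ × ℕ)) :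
    (d1_red T E).map wordC = d1_redW (d1_wT T) (E.map wordE) := by
  unfold d1_red d1_redW
  rw [List.map_flatMap]
  refine List.flatMap_congr fun p _ => ?_
  exact d1_blk_word T p

theorem d1_blkW_ptime {α : Type} [SCode α] (T : List (List Bool × List (ℕ × ℕ)))
    {p : α → List (List Bool) × ℕ} (hp : PTime p) : PTime (fun a => d1_blkW T (p a)) := by
  unfold d1_blkW
  refine PTime.map (l := fun _ => T) (f := fun a (e : List Bool × List (ℕ × ℕ)) =>
    e.1 :: e.2.map (fun q => d1_nm (p a).2 (p a).1 q)) (PTime.const T) ?_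
  refine PTime.cons (PTime.fst.comp PTime.snd) ?_
  refine PTime.map (l := fun a : α × (List Bool × List (ℕ × ℕ)) => a.2.2)
    (f := fun a (q : ℕ × ℕ) => d1_nm (p a.1).2 (p a.1).1 q) (PTime.snd.comp PTime.snd) ?_
  exact d1_nm_ptime (PTime.snd.comp (hp.comp (PTime.fst.comp PTime.fst)))
    (PTime.fst.comp (hp.comp (PTime.fst.comp PTime.fst))) PTime.snd

theorem d1_redW_ptime {α : Type} [SCode α] (T : List (List Bool × List (ℕ × ℕ)))
    {G : α → List (List (List Bool))} (hG : PTime G) : PTime (fun a => d1_redW T (G a)) := by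
  unfold d1_redW
  exact PTime.flatMap (f := fun (_ : α) p => d1_blkW T p) (PTime.zipIdx hG)
    (d1_blkW_ptime T PTime.snd)

theorem d1_red_length (T : List (d1_TC ar)) (E : List (ℕ × ℕ)) :
    (d1_red T E).length = T.length * E.length := by
  unfold d1_red
  rw [List.length_flatMap]
  have h : (E.map wordE).zipIdx.map (fun p => (d1_blk T p).length) =
      (E.map wordE).zipIdx.map (fun _ => T.length) := by
    refine List.map_congr_left fun p _ => ?_
    unfold d1_blk
    rw [List.length_map]
  rw [h]
  simp [Nat.mul_comm]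

theorem d1_valC_append (φ : (i : Fin g) → (Fin (ar i) → Fin d) → ℕ) (a : ℕ → Fin d)
    (F G : List (Con ar)) : valC φ a (F ++ G) = valC φ a F + valC φ a G := by
  unfold valC
  rw [List.map_append, List.sum_append]

theorem d1_valC_blk (φ : (i : Fin g) → (Fin (ar i) → Fin d) → ℕ) (T : List (d1_TC ar))
    (a : ℕ → Fin d) (e : ℕ × ℕ) (n : ℕ) :
    valC φ a (d1_blk T (wordE e, n)) =
      valE φ T (fun t => a (unbits (nb [] (3 * t)))) (a (unbits (nb (Nat.bits e.1) 1)))
        (a (unbits (nb (Nat.bits e.2) 1)))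
        (fun t => a (unbits (nb (List.replicate n false) (3 * t + 2)))) := by
  unfold valC d1_blk valE
  rw [List.map_map]
  congr 1
  refine List.map_congr_left fun t _ => ?_
  simp only [Function.comp]
  congr 1
  funext j
  exact d1_name_val (fun w => a (unbits w)) n (wordE e) (t.2 j)

theorem d1_valC_red (φ : (i : Fin g) → (Fin (ar i) → Fin d) → ℕ) (T : List (d1_TC ar))
    (a : ℕ → Fin d) (E : List (ℕ × ℕ)) :
    valC φ a (d1_red T E) = ∑ k : Fin E.length,
      valE φ T (fun t => a (unbits (nb [] (3 * t)))) (a (unbits (nb (Nat.bits E[k].1) 1)))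
        (a (unbits (nb (Nat.bits E[k].2) 1)))
        (fun t => a (unbits (nb (List.replicate (k : ℕ) false) (3 * t + 2)))) := by
  have key : ∀ (E : List (ℕ × ℕ)) (m : ℕ), valC φ a (((E.map wordE).zipIdx m).flatMap (d1_blk T)) =
      ∑ k : Fin E.length,
      valE φ T (fun t => a (unbits (nb [] (3 * t)))) (a (unbits (nb (Nat.bits E[k].1) 1)))
        (a (unbits (nb (Nat.bits E[k].2) 1)))
        (fun t => a (unbits (nb (List.replicate (m + (k : ℕ)) false) (3 * t + 2)))) := by
    intro E
    induction E with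
    | nil =>
      intro m
      rfl
    | cons e E ih =>
      intro m
      rw [List.map_cons, List.zipIdx_cons, List.flatMap_cons, d1_valC_append, d1_valC_blk, ih]
      have h := Fin.sum_univ_succ (fun k : Fin (E.length + 1) =>
        valE φ T (fun t => a (unbits (nb [] (3 * t))))
          (a (unbits (nb (Nat.bits ((e :: E)[(k : ℕ)]'(by
            have := k.2
            simpa using this)).1) 1)))
          (a (unbits (nb (Nat.bits ((e :: E)[(k : ℕ)]'(by
            have := k.2
            simpa using this)).2) 1)))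
          (fun t => a (unbits (nb (List.replicate (m + (k : ℕ)) false) (3 * t + 2)))))
      refine Eq.trans ?_ h.symm
      congr 1
      refine Finset.sum_congr rfl fun k _ => ?_
      have h2 : m + ((k.succ : Fin (E.length + 1)) : ℕ) = m + 1 + (k : ℕ) := by
        rw [Fin.val_succ]
        omega
      rw [h2]
      rfl
  have h := key E 0
  simp only [Nat.zero_add] at h
  exact h

end temp

theorem d1_card (E : List (ℕ × ℕ)) (α : ℕ → Bool) :
    (Finset.univ.filter (fun k : Fin E.length => α E[k].1 ≠ α E[k].2)).card =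
      E.countP (cutE α) := by
  induction E with
  | nil => rfl
  | cons e E ih =>
    rw [List.countP_cons, ← ih, Finset.card_filter, Finset.card_filter]
    have h := Fin.sum_univ_succ (fun k : Fin (E.length + 1) =>
      if α ((e :: E)[(k : ℕ)]'(by
            have := k.2
            simpa using this)).1 ≠ α ((e :: E)[(k : ℕ)]'(by
            have := k.2
            simpa using this)).2 then 1 else 0)
    refine Eq.trans h ?_
    rw [Nat.add_comm]
    congr 1
    have key : ∀ x y : Bool, (if x ≠ y then 1 else 0) = (if xor x y = true then 1 else 0) := by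
      decide
    exact key (α e.1) (α e.2)

theorem d1_yes {d g : ℕ} {ar : Fin g → ℕ} {φ : (i : Fin g) → (Fin (ar i) → Fin d) → ℕ}
    (X : EGad φ) (E : List (ℕ × ℕ)) (α : ℕ → Bool) :
    ∃ a : ℕ → Fin d, X.κ * E.length + X.δ * E.countP (cutE α) ≤ valC φ a (d1_red X.T E) := by
  obtain ⟨G, V, C, h⟩ := X.yes
  obtain ⟨A, hA⟩ : ∃ A : List Bool → Fin d, A = mkA G (fun w _ => V (α (unbits w)))
    (fun n => C (α (E.getD n (0, 0)).1) (α (E.getD n (0, 0)).2)) := ⟨_, rfl⟩
  refine ⟨fun m => A (Nat.bits m), ?_⟩
  rw [d1_valC_red]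
  have h1 : ∀ k : Fin E.length, X.κ + (if α E[k].1 ≠ α E[k].2 then X.δ else 0) ≤
      valE φ X.T (fun t => A (Nat.bits (unbits (nb [] (3 * t)))))
        (A (Nat.bits (unbits (nb (Nat.bits E[k].1) 1))))
        (A (Nat.bits (unbits (nb (Nat.bits E[k].2) 1))))
        (fun t => A (Nat.bits (unbits (nb (List.replicate (k : ℕ) false) (3 * t + 2))))) := by
    intro k
    have hnb : ∀ w t, Nat.bits (unbits (nb w t)) = nb w t := by
      intro w t
      obtain ⟨u, hu⟩ := nb_end w t
      rw [hu, bits_unbits]
    simp only [hnb]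
    have h2 : valE φ X.T (fun t => A (nb [] (3 * t))) (A (nb (Nat.bits E[k].1) 1))
        (A (nb (Nat.bits E[k].2) 1)) (fun t => A (nb (List.replicate (k : ℕ) false) (3 * t + 2))) =
        valE φ X.T G (V (α E[k].1)) (V (α E[k].2)) (C (α E[k].1) (α E[k].2)) := by
      unfold valE
      congr 1
      refine List.map_congr_left fun t _ => ?_
      congr 1
      funext j
      have h3 := d1_name_val A (k : ℕ) (wordE E[k]) (t.2 j)
      have h4 : A (d1_nm (k : ℕ) (wordE E[k]) (t.2 j)) =
          slE G (V (α E[k].1)) (V (α E[k].2)) (C (α E[k].1) (α E[k].2)) (t.2 j) := by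
        rw [hA, d1_mkA]
        have h5 : E.getD (k : ℕ) (0, 0) = E[k] := by
          rw [List.getD_eq_getElem _ _ k.2]
          rfl
        rw [h5]
        unfold wordE
        simp only [List.headD_cons, List.tail_cons, unbits_bits]
      rw [← h4, h3]
      rfl
    rw [h2]
    exact h _ _
  calc X.κ * E.length + X.δ * E.countP (cutE α) =
      ∑ k : Fin E.length, (X.κ + (if α E[k].1 ≠ α E[k].2 then X.δ else 0)) := by
        rw [Finset.sum_add_distrib, Finset.sum_const, Finset.card_univ, Fintype.card_fin,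
          smul_eq_mul, Nat.mul_comm, ← d1_card, ← Finset.sum_filter, Finset.sum_const, smul_eq_mul,
          Nat.mul_comm X.δ]
    _ ≤ _ := Finset.sum_le_sum fun k _ => h1 k

theorem d1_no {d g : ℕ} {ar : Fin g → ℕ} {φ : (i : Fin g) → (Fin (ar i) → Fin d) → ℕ}
    (X : EGad φ) (E : List (ℕ × ℕ)) (a : ℕ → Fin d) :
    ∃ α : ℕ → Bool, valC φ a (d1_red X.T E) ≤ X.κ * E.length + X.δ * E.countP (cutE α) := by
  obtain ⟨α, hα⟩ := X.no E.length (fun k => E[k].1) (fun k => E[k].2)
    (fun t => a (unbits (nb [] (3 * t)))) (fun v => a (unbits (nb (Nat.bits v) 1)))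
    (fun k t => a (unbits (nb (List.replicate (k : ℕ) false) (3 * t + 2))))
  refine ⟨α, ?_⟩
  rw [d1_valC_red, ← d1_card]
  exact hα

theorem d1_ne {d g : ℕ} {ar : Fin g → ℕ} {φ : (i : Fin g) → (Fin (ar i) → Fin d) → ℕ}
    (X : EGad φ) : 0 < X.T.length := by
  obtain ⟨G, V, C, h⟩ := X.yes
  have h1 := h true false
  rw [if_pos (by decide)] at h1
  rw [List.length_pos_iff]
  intro h2
  rw [h2] at h1
  have h3 : valE φ [] G (V true) (V false) (C true false) = 0 := rfl
  rw [h3] at h1
  have := X.pos
  omega

theorem d1 (h : D0S) : D1S := by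
  intro d g ar φ X p q b hp hpq hb
  have hT := d1_ne X
  have hδ := X.pos
  refine ⟨X.δ * p, q * (2 * X.κ + X.δ), 2 * X.T.length * b, Nat.mul_pos hδ hp, ?_,
    by positivity, fun hsep => ?_⟩
  · calc X.δ * p < X.δ * q := Nat.mul_lt_mul_of_pos_left hpq hδ
      _ = q * X.δ := Nat.mul_comm _ _
      _ ≤ q * (2 * X.κ + X.δ) := Nat.mul_le_mul_left _ (by omega)
  have hq : 0 < q := by omega
  have hf : PTime (fun x => encW ([List.replicate (X.κ * (parseW x).tail.length +
      X.δ * (((parseW x).headD []).headD []).length) true] ::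
        d1_redW (d1_wT X.T) (parseW x).tail)) := by
    refine encW_ptime (PTime.cons (PTime.cons (PTime.replicate ?_ (PTime.const true))
      (PTime.const [])) (d1_redW_ptime _ (PTime.tail parseW_ptime)))
    exact PTime.add (PTime.mul (PTime.const _) (PTime.length (PTime.tail parseW_ptime)))
      (PTime.mul (PTime.const _) (PTime.length (PTime.headD (PTime.headD parseW_ptime
        (PTime.const [])) (PTime.const []))))
  have hh : PTime (fun x => mydiv (parseW x).tail.length (2 * b)) :=
    mydiv_ptime (PTime.length (PTime.tail parseW_ptime)) (PTime.const (2 * b))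
  refine transfer hf hh ?_ ?_ hsep
  · intro I _
    unfold enCut nvCut
    refine (List.toFinset_card_le _).trans ?_
    rw [length_ends]
    refine le_trans ?_ (encW_length _)
    have h1 : ∀ E : List (ℕ × ℕ), ((E.map wordE).map List.length).sum = 2 * E.length := by
      intro E
      induction E with
      | nil => rfl
      | cons e E ih =>
        rw [List.map_cons, List.map_cons, List.sum_cons, ih]
        unfold wordE
        simp only [List.length_cons, List.length_nil]
        omega
    rw [List.map_cons, List.sum_cons, h1]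
    omega
  · rintro ⟨t, E⟩ hV
    have hx : parseW (enCut (t, E)) = [List.replicate t true] :: E.map wordE := by
      unfold enCut
      rw [parseW_encW]
    have hl : mydiv (parseW (enCut (t, E))).tail.length (2 * b) = E.length / (2 * b) := by
      rw [hx, List.tail_cons, List.length_map, mydiv_eq (by omega)]
    simp only [hl]
    refine ⟨(X.κ * E.length + X.δ * t, d1_red X.T E), trivial, ?_, ?_, ?_, ?_, ?_⟩
    · rw [hx]
      unfold enM
      simp only [List.headD_cons, List.tail_cons, List.length_map, List.length_replicate]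
      rw [d1_red_word]
    · rintro ⟨α, hα⟩
      obtain ⟨a, ha⟩ := d1_yes X E α
      refine ⟨a, ?_⟩
      simp only at hα ⊢
      exact (Nat.add_le_add_left (Nat.mul_le_mul_left _ hα) _).trans ha
    · intro hN a
      obtain ⟨β, hβ⟩ := h E hV.1
      obtain ⟨α, hα⟩ := d1_no X E a
      have h1 := (lt_frac_iff hq).1 (hN α)
      have h2 := (lt_frac_iff hq).1 (hN β)
      simp only at h1 h2 ⊢
      have hlen : E.length ≤ 2 * t := by
        by_contra hlt
        have h3 : 2 * t < 2 * E.countP (cutE β) := by omega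
        have h4 : t ≤ E.countP (cutE β) := by omega
        have h5 := Nat.mul_le_mul_left q h4
        omega
      rw [lt_frac_iff (by positivity)]
      obtain ⟨c, hc⟩ : ∃ c, c = E.countP (cutE α) := ⟨_, rfl⟩
      obtain ⟨v, hv⟩ : ∃ v, v = valC φ a (d1_red X.T E) := ⟨_, rfl⟩
      rw [← hc] at h1 hα
      rw [← hv] at hα ⊢
      have h3 : X.δ * p * (X.κ * E.length + X.δ * t) ≤
          X.δ * p * ((2 * X.κ + X.δ) * t) := by
        refine Nat.mul_le_mul_left _ ?_
        have h4 : X.κ * E.length ≤ X.κ * (2 * t) := Nat.mul_le_mul_left _ hlen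
        calc X.κ * E.length + X.δ * t ≤ X.κ * (2 * t) + X.δ * t := Nat.add_le_add_right h4 _
          _ = (2 * X.κ + X.δ) * t := by ring
      have h5 : q * (2 * X.κ + X.δ) * v ≤ q * (2 * X.κ + X.δ) * (X.κ * E.length + X.δ * c) :=
        Nat.mul_le_mul_left _ hα
      have h6 : (2 * X.κ + X.δ) * X.δ * (q * c + p * t) < (2 * X.κ + X.δ) * X.δ * (q * t) :=
        Nat.mul_lt_mul_of_pos_left h1 (by positivity)
      calc q * (2 * X.κ + X.δ) * v + X.δ * p * (X.κ * E.length + X.δ * t)
          ≤ q * (2 * X.κ + X.δ) * (X.κ * E.length + X.δ * c) +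
            X.δ * p * ((2 * X.κ + X.δ) * t) := Nat.add_le_add h5 h3
        _ = q * (2 * X.κ + X.δ) * (X.κ * E.length) +
            (2 * X.κ + X.δ) * X.δ * (q * c + p * t) := by ring
        _ < q * (2 * X.κ + X.δ) * (X.κ * E.length) +
            (2 * X.κ + X.δ) * X.δ * (q * t) := Nat.add_lt_add_left h6 _
        _ = q * (2 * X.κ + X.δ) * (X.κ * E.length + X.δ * t) := by ring
    · simp only
      rw [d1_red_length]
      have e1 : 2 * X.T.length * b = X.T.length * (2 * b) := by ring
      rw [e1, Nat.mul_div_mul_left _ _ hT]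
    · have h1 := edges_le hV
      have h2 := Nat.div_le_div_right (c := 2 * b) h1
      rw [Nat.mul_div_mul_left _ _ (by norm_num)] at h2
      exact h2

end Pool.Agent.Lib.MP_87d05f_lc.DI
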