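import Pool.Agent.Lib.MP_87d05f_lc.DI.Stm

set_option autoImplicit false

/-!
# Farkas' lemma over the rationals

Fourier-Motzkin elimination for systems indexed by arbitrary finite types.
-/

namespace Pool.Agent.Lib.MP_87d05f_lc.DI

open Finset

/-- a number between finitely many lower and upper bounds -/
theorem farkas_between {ι : Type} [Fintype ι] (P N : ι → Prop) (u l : ι → ℚ)
    (h : ∀ p q, P p → N q → l q ≤ u p) :
    ∃ x, (∀ p, P p → x ≤ u p) ∧ ∀ q, N q → l q ≤ x := by
  classical
  by_cases hN : (univ.filter N).Nonempty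
  · obtain ⟨q, hq, hmax⟩ := exists_max_image (univ.filter N) l hN
    rw [mem_filter] at hq
    exact ⟨l q, fun p hp => h p q hp hq.2, fun q' hq' => hmax q' (by simp [hq'])⟩
  · by_cases hP : (univ.filter P).Nonempty
    · obtain ⟨p, hp, hmin⟩ := exists_min_image (univ.filter P) u hP
      exact ⟨u p, fun p' hp' => hmin p' (by simp [hp']),
        fun q hq => absurd ⟨q, by simp [hq]⟩ hN⟩
    · exact ⟨0, fun p hp => absurd ⟨p, by simp [hp]⟩ hP, fun q hq => absurd ⟨q, by simp [hq]⟩ hN⟩

/-- Farkas' lemma for systems of inequalities without sign conditions on the variables -/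
theorem farkas_fm : ∀ (n : ℕ) (ι : Type) [Fintype ι] (A : ι → Fin n → ℚ) (b : ι → ℚ),
    (∃ x : Fin n → ℚ, ∀ i, ∑ j, A i j * x j ≤ b i) ∨
    (∃ y : ι → ℚ, (∀ i, 0 ≤ y i) ∧ (∀ j, ∑ i, y i * A i j = 0) ∧ ∑ i, y i * b i < 0) := by
  classical
  intro n
  induction n with
  | zero =>
    intro ι _ A b
    by_cases h : ∀ i, 0 ≤ b i
    · exact Or.inl ⟨Fin.elim0, fun i => by simpa using h i⟩
    · push Not at h
      obtain ⟨i, hi⟩ := h
      refine Or.inr ⟨fun k => if k = i then 1 else 0, fun k => ?_, fun j => j.elim0, ?_⟩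
      · change (0 : ℚ) ≤ if k = i then 1 else 0
        split_ifs <;> norm_num
      · simpa using hi
  | succ n ih =>
    intro ι _ A b
    let C : ι ⊕ ι × ι → ι → ℚ := Sum.elim
      (fun z i => if A z 0 = 0 then (if i = z then 1 else 0) else 0)
      (fun pq i => if 0 < A pq.1 0 ∧ A pq.2 0 < 0 then
        (if i = pq.1 then - A pq.2 0 else 0) + (if i = pq.2 then A pq.1 0 else 0) else 0)
    have hCl : ∀ (z : ι) (g : ι → ℚ), A z 0 = 0 → ∑ i, C (Sum.inl z) i * g i = g z := by
      intro z g hz
      simp [C, hz]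
    have hCr : ∀ (p q : ι) (g : ι → ℚ), 0 < A p 0 → A q 0 < 0 →
        ∑ i, C (Sum.inr (p, q)) i * g i = - A q 0 * g p + A p 0 * g q := by
      intro p q g hp hq
      simp [C, hp, hq, add_mul, Finset.sum_add_distrib]
    have hC0 : ∀ k i, 0 ≤ C k i := by
      rintro (z | ⟨p, q⟩) i
      · change 0 ≤ (if A z 0 = 0 then (if i = z then (1 : ℚ) else 0) else 0)
        split_ifs <;> norm_num
      · change 0 ≤ (if 0 < A p 0 ∧ A q 0 < 0 then
          (if i = p then - A q 0 else 0) + (if i = q then A p 0 else 0) else 0)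
        by_cases h : 0 < A p 0 ∧ A q 0 < 0
        · rw [if_pos h]
          obtain ⟨h1, h2⟩ := h
          split_ifs <;> linarith
        · rw [if_neg h]
    have hCa : ∀ k, ∑ i, C k i * A i 0 = 0 := by
      rintro (z | ⟨p, q⟩)
      · by_cases h : A z 0 = 0
        · rw [hCl z _ h, h]
        · simp [C, h]
      · by_cases h : 0 < A p 0 ∧ A q 0 < 0
        · rw [hCr p q _ h.1 h.2]; ring
        · simp [C, h]
    rcases ih (ι ⊕ ι × ι) (fun k j => ∑ i, C k i * A i j.succ) (fun k => ∑ i, C k i * b i) with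
      ⟨x, hx⟩ | ⟨y, hy0, hy1, hy2⟩
    · left
      have hx' : ∀ k, ∑ i, C k i * (∑ j, A i (Fin.succ j) * x j) ≤ ∑ i, C k i * b i := by
        intro k
        refine le_trans (le_of_eq ?_) (hx k)
        simp only [Finset.mul_sum, Finset.sum_mul]
        rw [Finset.sum_comm]
        exact Finset.sum_congr rfl fun j _ => Finset.sum_congr rfl fun i _ => by ring
      obtain ⟨r, hr⟩ : ∃ r : ι → ℚ, ∀ i, r i = ∑ j, A i (Fin.succ j) * x j := ⟨_, fun _ => rfl⟩
      have hx2 : ∀ k, ∑ i, C k i * r i ≤ ∑ i, C k i * b i := by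
        intro k
        simp only [hr]
        exact hx' k
      have hz : ∀ z, A z 0 = 0 → r z ≤ b z := by
        intro z hz
        have := hx2 (Sum.inl z)
        rwa [hCl z _ hz, hCl z _ hz] at this
      have hpq : ∀ p q, 0 < A p 0 → A q 0 < 0 →
          - A q 0 * r p + A p 0 * r q ≤ - A q 0 * b p + A p 0 * b q := by
        intro p q hp hq
        have := hx2 (Sum.inr (p, q))
        rwa [hCr p q _ hp hq, hCr p q _ hp hq] at this
      obtain ⟨t, ht1, ht2⟩ := farkas_between (fun p => 0 < A p 0) (fun q => A q 0 < 0)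
        (fun p => (b p - r p) / A p 0) (fun q => (b q - r q) / A q 0) (by
          intro p q hp hq
          have h1 := hpq p q hp hq
          rw [div_le_iff_of_neg hq, div_mul_eq_mul_div, div_le_iff₀ hp]
          nlinarith)
      refine ⟨Fin.cons t x, fun i => ?_⟩
      rw [Fin.sum_univ_succ]
      simp only [Fin.cons_zero, Fin.cons_succ]
      rw [← hr i]
      rcases lt_trichotomy (A i 0) 0 with h | h | h
      · have h1 := ht2 i h
        rw [div_le_iff_of_neg h] at h1
        linarith
      · rw [h]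
        have := hz i h
        linarith
      · have h1 := ht1 i h
        rw [le_div_iff₀ h] at h1
        linarith
    · right
      have hsw : ∀ g : ι → ℚ, ∑ i, (∑ k, y k * C k i) * g i = ∑ k, y k * ∑ i, C k i * g i := by
        intro g
        simp only [Finset.mul_sum, Finset.sum_mul]
        rw [Finset.sum_comm]
        exact Finset.sum_congr rfl fun k _ => Finset.sum_congr rfl fun i _ => by ring
      refine ⟨fun i => ∑ k, y k * C k i,
        fun i => Finset.sum_nonneg fun k _ => mul_nonneg (hy0 k) (hC0 k i), fun j => ?_, ?_⟩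
      · rw [hsw (fun i => A i j)]
        refine Fin.cases ?_ (fun j => ?_) j
        · simp only [hCa, mul_zero, Finset.sum_const_zero]
        · exact hy1 j
      · rw [hsw b]
        exact hy2

/-- Farkas' lemma over the rationals -/
theorem farkas : FarkasS := by
  classical
  intro m n A b
  rcases farkas_fm n (Fin m ⊕ Fin n)
    (Sum.elim A (fun j j' => if j' = j then -1 else 0)) (Sum.elim b (fun _ => 0)) with
    ⟨x, hx⟩ | ⟨y, hy0, hy1, hy2⟩
  · left
    refine ⟨x, fun j => ?_, fun i => ?_⟩
    · have := hx (Sum.inr j)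
      simp at this
      exact this
    · exact hx (Sum.inl i)
  · right
    refine ⟨fun i => y (Sum.inl i), fun i => hy0 _, fun j => ?_, ?_⟩
    · have h1 := hy1 j
      rw [Fintype.sum_sum_type] at h1
      simp at h1
      have h2 := hy0 (Sum.inr j)
      linarith
    · rw [Fintype.sum_sum_type] at hy2
      simpa using hy2

end Pool.Agent.Lib.MP_87d05f_lc.DI
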