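import Mathlib
import Pool.Agent.Lib.MP_87d05f_lc.DI.Stm
import Pool.Agent.Lib.MP_87d05f_lc.DI.Push

set_option autoImplicit false

/-!
# [g1] soundness of the gadget for families of edges
-/

namespace Pool.Agent.Lib.MP_87d05f_lc.DI

open Finset

/-- the value of the restricted payoffs -/
lemma val_res {D ι V : Type} [Fintype ι] [Fintype V] {ar : ι → ℕ} (f : Pay D ar) (e : D → D)
    (w : Scp ar V → ℚ) (a : V → Core e) :
    val (res f e) w a = val f w (fun v => (a v).1) := rfl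

theorem g1 (h : U3S) : G1S := by
  intro D ι _ _ hne _ ar f e he r w hh hw hval hG hGU m s t X C
  -- a bound for the vertices
  obtain ⟨N, hN⟩ : ∃ N : ℕ, ∀ k, s k < N ∧ t k < N := by
    refine ⟨(∑ k, (s k + t k)) + 1, fun k => ?_⟩
    have h1 : s k + t k ≤ ∑ k, (s k + t k) :=
      Finset.single_le_sum (f := fun k => s k + t k) (fun _ _ => Nat.zero_le _)
        (Finset.mem_univ k)
    constructor <;> omega
  let V : Type := Fin N ⊕ Fin m × Fin r
  let ρ : Fin m → (Fin 2 ⊕ Fin r) ⊕ Core e → V ⊕ Core e := fun k =>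
    Sum.elim (Sum.elim ![Sum.inl (Sum.inl ⟨s k, (hN k).1⟩), Sum.inl (Sum.inl ⟨t k, (hN k).2⟩)]
      (fun z => Sum.inl (Sum.inr (k, z)))) Sum.inr
  let a : V → D := Sum.elim (fun v => X v.1) (fun p => C p.1 p.2)
  have hW : ∀ c, 0 ≤ (fun c => ∑ k ∈ (univ : Finset (Fin m)), push (ρ k) w c) c := fun c =>
    Finset.sum_nonneg fun k _ => push_nonneg _ hw c
  obtain ⟨b, hb⟩ := h D ι V ar f e he _ hW hG hGU a
  have hcomp : ∀ (y : V → D) (g : Core e → D),
      val f (fun c => ∑ k ∈ (univ : Finset (Fin m)), push (ρ k) w c) (Sum.elim y g)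
        = ∑ k, val f w (Sum.elim (Sum.elim ![y (Sum.inl ⟨s k, (hN k).1⟩),
          y (Sum.inl ⟨t k, (hN k).2⟩)] (fun z => y (Sum.inr (k, z)))) g) := by
    intro y g
    rw [val_sum]
    refine Finset.sum_congr rfl fun k _ => ?_
    rw [val_push]
    congr 1
    funext v
    rcases v with (v | v) | v
    · fin_cases v <;> rfl
    · rfl
    · rfl
  obtain ⟨d0⟩ := hne
  let b0 : Core e := ⟨e d0, he.idem d0⟩
  refine ⟨fun v => if hv : v < N then b (Sum.inl ⟨v, hv⟩) else b0, ?_⟩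
  rw [hcomp, hcomp] at hb
  refine (le_of_eq ?_).trans (hb.trans (Finset.sum_le_sum fun k _ => ?_))
  · rfl
  · have h1 := hval (b (Sum.inl ⟨s k, (hN k).1⟩)) (b (Sum.inl ⟨t k, (hN k).2⟩))
      (fun z => b (Sum.inr (k, z)))
    rw [val_res] at h1
    simp only [dif_pos (hN k).1, dif_pos (hN k).2]
    refine (le_of_eq ?_).trans h1
    congr 1
    funext v
    rcases v with (v | v) | v
    · fin_cases v <;> rfl
    · rfl
    · rfl

end Pool.Agent.Lib.MP_87d05f_lc.DI
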