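import Pool.Agent.Lib.MP_87d05f_lc.DI.Stm

set_option autoImplicit false

/-!
# DICHOTOMY, piece g2: the integral gadget
-/

namespace Pool.Agent.Lib.MP_87d05f_lc.DI

open Finset

/-- common denominator -/
theorem g2_den (X : Type) [Fintype X] (w : X → ℚ) (hw : ∀ x, 0 ≤ w x) :
    ∃ (N : ℕ) (k : X → ℕ), 0 < N ∧ ∀ x, (N : ℚ) * w x = k x := by
  classical
  refine ⟨∏ x, (w x).den, fun x => (∏ y ∈ univ.erase x, (w y).den) * (w x).num.toNat,
    Finset.prod_pos fun x _ => (w x).pos, fun x => ?_⟩
  rw [← Finset.mul_prod_erase univ (fun x => (w x).den) (mem_univ x)]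
  have h1 : (w x) * (w x).den = (w x).num := Rat.mul_den_eq_num _
  have h2 : (((w x).num.toNat : ℤ)) = (w x).num :=
    Int.toNat_of_nonneg (Rat.num_nonneg.2 (hw x))
  have h3 : (((w x).num.toNat : ℕ) : ℚ) = ((w x).num : ℚ) := by exact_mod_cast h2
  push_cast
  rw [h3, ← h1]
  ring

/-- the sum over a list with multiplicities -/
theorem g2_list {X A : Type} (l : List X) (n : X → ℕ) (t : X → A) (F : A → ℕ) :
    ((l.flatMap fun c => List.replicate (n c) (t c)).map F).sum =
      (l.map fun c => n c * F (t c)).sum := by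
  induction l with
  | nil => rfl
  | cons a l ih =>
    rw [List.flatMap_cons, List.map_append, List.sum_append, ih, List.map_replicate,
      List.sum_replicate, List.map_cons, List.sum_cons, smul_eq_mul]

theorem g2_sum {X A : Type} [Fintype X] (n : X → ℕ) (t : X → A) (F : A → ℕ) :
    (((univ : Finset X).toList.flatMap fun c => List.replicate (n c) (t c)).map F).sum =
      ∑ c, n c * F (t c) := by
  rw [g2_list, Finset.sum_map_toList]

/-- the slots of the edge part -/
def g2_s1 {d r : ℕ} {e : Fin d → Fin d} : (Fin 2 ⊕ Fin r) ⊕ Core e → ℕ × ℕ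
  | .inl (.inl i) => (i.val + 1, 0)
  | .inl (.inr z) => (3, z.val)
  | .inr c => (0, c.1.val)

theorem g2_sl1 {d r : ℕ} {e : Fin d → Fin d} (G : ℕ → Fin d) (x y : Fin d) (C : ℕ → Fin d)
    (v : (Fin 2 ⊕ Fin r) ⊕ Core e) : slE G x y C (g2_s1 v) =
      Sum.elim (Sum.elim ![x, y] (fun z => C z.val)) (fun c => G c.1.val) v := by
  rcases v with (i | z) | c
  · fin_cases i <;> rfl
  · rfl
  · rfl

/-- the value on integral weights -/
theorem g2_val {d g : ℕ} {ar : Fin g → ℕ} (φ : (i : Fin g) → (Fin (ar i) → Fin d) → ℕ)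
    {V : Type} [Fintype V] (w : Scp ar V → ℚ) (N : ℕ) (n : Scp ar V → ℕ)
    (hn : ∀ c, (N : ℚ) * w c = n c) (a : V → Fin d) :
    (N : ℚ) * val (ratP φ) w a = ((∑ c, n c * φ c.1 (fun j => a (c.2 j)) : ℕ) : ℚ) := by
  rw [val, Finset.mul_sum]
  push_cast
  refine Finset.sum_congr rfl fun c _ => ?_
  rw [← mul_assoc, hn]
  rfl

theorem g2 (h1 : U1S) (h4 : U4S) (h5 : U5S) (h7 : U7S) (h6 : S6S) (hg : G1S) : GadS := by
  intro d g ar φ hd hns
  have hne : Nonempty (Fin d) := ⟨⟨0, hd⟩⟩
  obtain ⟨e, hR⟩ := h1 (Fin d) (Fin g) ar (ratP φ)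
  have hcore : Nonempty (Core e) := ⟨⟨e ⟨0, hd⟩, hR.idem _⟩⟩
  have huniq : Uniq (res (ratP φ) e) := fun a => h5 (Fin d) (Fin g) ar (ratP φ) e hR a
  have hns' : ¬ SymPol (res (ratP φ) e) := fun h =>
    hns (h7 (Fin d) (Fin g) ar (ratP φ) e hR h)
  obtain ⟨h, p, q, H, L, ⟨r, w, hw0, hw⟩, hpq, hLH, hHpq, hHqp, hLp, hLq, hrest⟩ :=
    h6 (Core e) (Fin g) ar (res (ratP φ) e) huniq hns'
  obtain ⟨wI, hwI0, hwI⟩ := h4 (Fin d) (Fin g) ar (ratP φ)
  -- common denominator
  obtain ⟨N, k, hN, hk⟩ := g2_den (Scp ar ((Fin 2 ⊕ Fin r) ⊕ Core e) ⊕ Scp ar (Fin d))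
    (Sum.elim w wI) (by
      rintro (c | c)
      · exact hw0 c
      · exact hwI0 c)
  have hNq : (0 : ℚ) < N := by exact_mod_cast hN
  set n1 : Scp ar ((Fin 2 ⊕ Fin r) ⊕ Core e) → ℕ := fun c => k (Sum.inl c) with hn1
  set nI : Scp ar (Fin d) → ℕ := fun c => k (Sum.inr c) with hnI
  have hk1 : ∀ c, (N : ℚ) * w c = n1 c := fun c => hk (Sum.inl c)
  have hkI : ∀ c, (N : ℚ) * wI c = nI c := fun c => hk (Sum.inr c)
  -- values of the edge part
  set v1 : (((Fin 2 ⊕ Fin r) ⊕ Core e) → Fin d) → ℕ := fun a =>
    ∑ c, n1 c * φ c.1 (fun j => a (c.2 j)) with hv1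
  set vI : (Fin d → Fin d) → ℕ := fun a => ∑ c, nI c * φ c.1 (fun j => a (c.2 j)) with hvI
  have hv1q : ∀ a, (N : ℚ) * val (ratP φ) w a = (v1 a : ℚ) := fun a => g2_val φ w N n1 hk1 a
  have hvIq : ∀ a, (N : ℚ) * val (ratP φ) wI a = (vI a : ℚ) := fun a => g2_val φ wI N nI hkI a
  -- a bound for the edge part
  obtain ⟨M, hM⟩ : ∃ M : ℕ, ∀ a, v1 a ≤ M :=
    ⟨∑ a, v1 a, fun a => Finset.single_le_sum (fun _ _ => Nat.zero_le _) (mem_univ a)⟩
  -- the template
  set T : List ((i : Fin g) × (Fin (ar i) → ℕ × ℕ)) :=
    ((univ : Finset (Scp ar ((Fin 2 ⊕ Fin r) ⊕ Core e))).toList.flatMap fun c =>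
      List.replicate (n1 c) ⟨c.1, fun j => g2_s1 (c.2 j)⟩) ++
    ((univ : Finset (Scp ar (Fin d))).toList.flatMap fun c =>
      List.replicate (M * nI c) ⟨c.1, fun j => (0, (c.2 j).val)⟩) with hT
  have hval : ∀ G x y C, valE φ T G x y C =
      v1 (Sum.elim (Sum.elim ![x, y] (fun z => C z.val)) (fun c => G c.1.val)) +
        M * vI (fun z => G z.val) := by
    intro G x y C
    rw [valE, hT, List.map_append, List.sum_append, g2_sum, g2_sum, hv1, hvI]
    congr 1
    · refine Finset.sum_congr rfl fun c _ => ?_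
      congr 2
      funext j
      exact g2_sl1 G x y C (c.2 j)
    · change _ = M * ∑ c, nI c * φ c.1 (fun j => G (c.2 j).val)
      rw [Finset.mul_sum]
      refine Finset.sum_congr rfl fun c _ => ?_
      rw [mul_assoc]
      rfl
  -- the values on the core
  have hz : ∀ x y : Core e, ∃ z : Fin r → Core e,
      (N : ℚ) * h x y = (v1 (Sum.elim (Sum.elim ![x.1, y.1] (fun i => (z i).1))
        (fun c => c.1)) : ℚ) := by
    intro x y
    obtain ⟨z, hz⟩ := (hw ![x, y]).1
    refine ⟨z, ?_⟩
    have hz' : val (res (ratP φ) e) w (Sum.elim (Sum.elim ![x, y] z) id) = h x y := hz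
    rw [← hv1q, ← hz']
    congr 1
    rw [val, val]
    refine Finset.sum_congr rfl fun c _ => ?_
    congr 1
    rw [res]
    congr 1
    funext j
    rcases c.2 j with (i | i) | i
    · fin_cases i <;> rfl
    · rfl
    · rfl
  choose z hz using hz
  obtain ⟨lN, hlN⟩ : ∃ lN : ℕ, (N : ℚ) * L = lN := ⟨_, by rw [← hLp]; exact hz p p⟩
  obtain ⟨hN', hhN⟩ : ∃ hN' : ℕ, (N : ℚ) * H = hN' := ⟨_, by rw [← hHpq]; exact hz p q⟩
  have hlt : lN < hN' := by
    have h2 : (N : ℚ) * L < N * H := mul_lt_mul_of_pos_left hLH hNq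
    rw [hlN, hhN] at h2
    exact_mod_cast h2
  refine ⟨⟨T, M * vI id + lN, hN' - lN, by omega, ?_, ?_⟩⟩
  · -- yes
    let G : ℕ → Fin d := fun t => if ht : t < d then ⟨t, ht⟩ else ⟨0, hd⟩
    have hGv : ∀ t : Fin d, G t.val = t := fun t => by
      simp only [G, t.2, dif_pos]
    let V : Bool → Core e := fun b => if b then p else q
    refine ⟨G, fun b => (V b).1, fun b b' t => if ht : t < r then (z (V b) (V b') ⟨t, ht⟩).1
      else ⟨0, hd⟩, fun x y => ?_⟩
    rw [hval]
    have e1 : (fun z : Fin d => G z.val) = id := funext hGv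
    have e2 : (Sum.elim (Sum.elim ![(V x).1, (V y).1] (fun i : Fin r =>
        (fun t => if ht : t < r then (z (V x) (V y) ⟨t, ht⟩).1 else (⟨0, hd⟩ : Fin d)) i.val))
        (fun c : Core e => G c.1.val)) = Sum.elim (Sum.elim ![(V x).1, (V y).1]
          (fun i => (z (V x) (V y) i).1)) (fun c : Core e => c.1) := by
      funext v
      rcases v with (i | i) | c
      · rfl
      · simp
      · exact hGv c.1
    rw [e1]
    have e3 : v1 (Sum.elim (Sum.elim ![(V x).1, (V y).1] (fun i : Fin r =>
        (fun t => if ht : t < r then (z (V x) (V y) ⟨t, ht⟩).1 else (⟨0, hd⟩ : Fin d)) i.val))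
        (fun c : Core e => G c.1.val)) = lN + (if x ≠ y then hN' - lN else 0) := by
      rw [e2]
      have e4 := hz (V x) (V y)
      by_cases hxy : x = y
      · subst hxy
        rw [if_neg (by simp), add_zero]
        have e5 : h (V x) (V x) = L := by
          cases x
          · exact hLq
          · exact hLp
        rw [e5, hlN] at e4
        exact_mod_cast e4.symm
      · rw [if_pos hxy]
        have e5 : h (V x) (V y) = H := by
          cases x <;> cases y
          · exact absurd rfl hxy
          · exact hHqp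
          · exact hHpq
          · exact absurd rfl hxy
        rw [e5, hhN] at e4
        have e6 : hN' = v1 (Sum.elim (Sum.elim ![(V x).1, (V y).1]
          (fun i => (z (V x) (V y) i).1)) (fun c : Core e => c.1)) := by exact_mod_cast e4
        rw [← e6]
        omega
    rw [e3]
    omega
  · -- no
    intro m s t G X C
    by_cases hU : InU (ratP φ) (fun z : Fin d => G z.val)
    · obtain ⟨b, hb⟩ := hg (Fin d) (Fin g) ar (ratP φ) e hR r w h hw0
        (fun x y z' => (hw ![x, y]).2 ⟨z', rfl⟩) (fun z : Fin d => G z.val) hU m s t X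
        (fun k' i => C k' i.val)
      refine ⟨fun v => decide (b v = p), ?_⟩
      have hbound : ∀ x y : Core e, h x y ≤ L + (H - L) *
          (if decide (x = p) ≠ decide (y = p) then 1 else 0) := by
        intro x y
        by_cases hx : x = p <;> by_cases hy : y = p
        · subst hx
          subst hy
          simp [hLp]
        · subst hx
          simp only [hy, decide_true, decide_false]
          by_cases hy' : y = q
          · subst hy'
            simp [hHpq]
          · have := hrest x y (fun h' => by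
              rcases h'.2 with h'' | h''
              · exact hy h''
              · exact hy' h'')
            simp
            linarith
        · subst hy
          simp only [hx, decide_true, decide_false]
          by_cases hx' : x = q
          · subst hx'
            simp [hHqp]
          · have := hrest x y (fun h' => by
              rcases h'.1 with h'' | h''
              · exact hx h''
              · exact hx' h'')
            simp
            linarith
        · simp only [hx, hy, decide_false, ne_eq, not_true_eq_false, if_false, mul_zero, add_zero]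
          by_cases hx' : x = q
          · by_cases hy' : y = q
            · rw [hx', hy', hLq]
            · exact hrest x y (fun h' => by
                rcases h'.2 with h'' | h''
                · exact hy h''
                · exact hy' h'')
          · exact hrest x y (fun h' => by
              rcases h'.1 with h'' | h''
              · exact hx h''
              · exact hx' h'')
      have hsum : ∑ k', h (b (s k')) (b (t k')) ≤ L * m + (H - L) *
          ((univ.filter (fun k' => decide (b (s k') = p) ≠ decide (b (t k') = p))).card : ℚ) := by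
        refine (Finset.sum_le_sum fun k' _ => hbound (b (s k')) (b (t k'))).trans_eq ?_
        rw [Finset.sum_add_distrib, Finset.sum_const, Finset.card_univ, Fintype.card_fin,
          ← Finset.mul_sum, Finset.sum_boole, nsmul_eq_mul, mul_comm (m : ℚ)]
      have hI : vI (fun z : Fin d => G z.val) ≤ vI id := by
        have h2 := mul_le_mul_of_nonneg_left (hwI (fun z : Fin d => G z.val)).1 hNq.le
        rw [hvIq, hvIq] at h2
        exact_mod_cast h2
      have key : ((∑ k', valE φ T G (X (s k')) (X (t k')) (C k') : ℕ) : ℚ) ≤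
          (((M * vI id + lN) * m + (hN' - lN) *
            (univ.filter (fun k' => decide (b (s k') = p) ≠ decide (b (t k') = p))).card : ℕ) : ℚ) := by
        simp only [hval]
        push_cast [Nat.cast_sub hlt.le]
        rw [Finset.sum_add_distrib, Finset.sum_const, Finset.card_univ, Fintype.card_fin,
          nsmul_eq_mul, ← hlN, ← hhN]
        have h3 : ∑ k', ((v1 (Sum.elim (Sum.elim ![X (s k'), X (t k')] (fun z => C k' z.val))
            (fun c => G c.1.val)) : ℕ) : ℚ) ≤ N * ∑ k', h (b (s k')) (b (t k')) := by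
          refine le_trans (le_of_eq ?_) (mul_le_mul_of_nonneg_left hb hNq.le)
          rw [Finset.mul_sum]
          refine Finset.sum_congr rfl fun k' _ => ?_
          rw [hv1q]
        have h4' : (m : ℚ) * ((M : ℚ) * (vI (fun z : Fin d => G z.val) : ℚ)) ≤
            m * (M * (vI id : ℚ)) := by
          have : ((vI (fun z : Fin d => G z.val) : ℕ) : ℚ) ≤ vI id := by exact_mod_cast hI
          gcongr
        have h5' := mul_le_mul_of_nonneg_left hsum hNq.le
        calc _ ≤ (N : ℚ) * ∑ k', h (b (s k')) (b (t k')) + m * (M * (vI id : ℚ)) :=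
              add_le_add h3 h4'
          _ ≤ N * (L * m + (H - L) * ((univ.filter (fun k' =>
              decide (b (s k') = p) ≠ decide (b (t k') = p))).card : ℚ)) +
                m * (M * (vI id : ℚ)) := by linarith
          _ = _ := by ring
      exact_mod_cast key
    · refine ⟨fun _ => false, ?_⟩
      have hI : vI (fun z : Fin d => G z.val) + 1 ≤ vI id := by
        have h2 : val (ratP φ) wI (fun z : Fin d => G z.val) < val (ratP φ) wI id :=
          lt_of_le_of_ne (hwI _).1 (fun h' => hU ((hwI _).2.1 h'))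
        have h3 := mul_lt_mul_of_pos_left h2 hNq
        rw [hvIq, hvIq] at h3
        have h4' : vI (fun z : Fin d => G z.val) < vI id := by exact_mod_cast h3
        exact h4'
      have hblock : ∀ k', valE φ T G (X (s k')) (X (t k')) (C k') ≤ M * vI id + lN := by
        intro k'
        rw [hval]
        have h2 := hM (Sum.elim (Sum.elim ![X (s k'), X (t k')] (fun z => C k' z.val))
          (fun c => G c.1.val))
        have h3 : M * (vI (fun z : Fin d => G z.val) + 1) ≤ M * vI id := Nat.mul_le_mul_left M hI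
        rw [mul_add, mul_one] at h3
        omega
      refine (Finset.sum_le_sum fun k' _ => hblock k').trans ?_
      rw [Finset.sum_const, Finset.card_univ, Fintype.card_fin, smul_eq_mul, mul_comm m]
      exact Nat.le_add_right _ _

end Pool.Agent.Lib.MP_87d05f_lc.DI
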