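import Pool.Agent.Lib.MP_87d05f_lc.DI.Stm

set_option autoImplicit false

/-!
# Gordan's alternative over the rationals
-/

namespace Pool.Agent.Lib.MP_87d05f_lc.DI

open Finset

theorem gordan (h : FarkasS) : GordanS := by
  classical
  intro X C _ _ M hno
  obtain ⟨eX⟩ : Nonempty (X ≃ Fin (Fintype.card X)) := ⟨Fintype.equivFin X⟩
  obtain ⟨eC⟩ : Nonempty (C ≃ Fin (Fintype.card C)) := ⟨Fintype.equivFin C⟩
  rcases h (Fintype.card C + 1) (Fintype.card X)
      (Fin.cons (fun _ => -1) (fun k j => - M (eC.symm k) (eX.symm j)))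
      (Fin.cons (-1) (fun _ => 0)) with ⟨x, hx0, hx⟩ | ⟨y, hy0, hyA, hyb⟩
  · exfalso
    apply hno
    have h1 : 1 ≤ ∑ j, x j := by
      have := hx 0
      simp only [Fin.cons_zero, neg_mul, one_mul, sum_neg_distrib] at this
      linarith
    have h2 : ∀ c, 0 ≤ ∑ j, x j * M c (eX.symm j) := by
      intro c
      have := hx (eC c).succ
      simp only [Fin.cons_succ, neg_mul, sum_neg_distrib, Equiv.symm_apply_apply] at this
      have h3 : ∑ j, x j * M c (eX.symm j) = ∑ j, M c (eX.symm j) * x j :=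
        sum_congr rfl fun j _ => mul_comm _ _
      rw [h3]
      linarith
    have hs : 0 < ∑ j, x j := by linarith
    have e1 : ∀ f : X → ℚ, ∑ z, f z = ∑ j, f (eX.symm j) := fun f =>
      (Equiv.sum_comp eX.symm f).symm
    refine ⟨fun z => x (eX z) / ∑ j, x j, ⟨fun z => div_nonneg (hx0 _) hs.le, ?_⟩, ?_⟩
    · rw [e1]
      simp only [Equiv.apply_symm_apply]
      rw [← sum_div, div_self hs.ne']
    · intro c
      rw [e1]
      simp only [Equiv.apply_symm_apply]
      have h4 : ∑ j, x j / (∑ j, x j) * M c (eX.symm j) =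
          (∑ j, x j * M c (eX.symm j)) / ∑ j, x j := by
        rw [sum_div]
        exact sum_congr rfl fun j _ => by ring
      rw [h4]
      exact div_nonneg (h2 c) hs.le
  · refine ⟨fun c => y (eC c).succ, fun c => hy0 _, fun z => ?_⟩
    have h1 := hyA (eX z)
    rw [Fin.sum_univ_succ] at h1 hyb
    simp only [Fin.cons_zero, Fin.cons_succ, mul_neg, mul_one, mul_zero, sum_const_zero, add_zero,
      sum_neg_distrib, Equiv.symm_apply_apply] at h1 hyb
    have e2 : ∑ c, y (eC c).succ * M c z = ∑ k, y k.succ * M (eC.symm k) z := by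
      rw [← Equiv.sum_comp eC.symm]
      simp only [Equiv.apply_symm_apply]
    rw [e2]
    linarith

end Pool.Agent.Lib.MP_87d05f_lc.DI
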