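import Pool.Agent.Lib.MP_87d05f_lc.DI.Stm

set_option autoImplicit false

/-!
# [maxp] The maximum principle for chains
-/

namespace Pool.Agent.Lib.MP_87d05f_lc.DI

open Finset

/-- [maxp] Maximum principle. -/
theorem maxp : MaxpS := by
  intro X A _ ω T S F hω hfin hmap hirr hsub s hs t ht
  obtain ⟨s0, hs0, hmax⟩ := Set.exists_max_image S F hfin ⟨s, hs⟩
  have hpos : ∀ x, 0 ≤ ω x * (F s0 - F (T x s0)) := by
    intro x
    rcases (hω.1 x).eq_or_lt with h | h
    · rw [← h, zero_mul]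
    · exact mul_nonneg h.le (sub_nonneg.mpr (hmax _ (hmap x h s0 hs0)))
  have hsum : ∑ x, ω x * (F s0 - F (T x s0)) ≤ 0 := by
    have h1 : ∑ x, ω x * (F s0 - F (T x s0)) = (∑ x, ω x) * F s0 - ∑ x, ω x * F (T x s0) := by
      rw [sum_mul, ← sum_sub_distrib]
      apply sum_congr rfl
      intro x _
      ring
    rw [h1, hω.2, one_mul]
    linarith [hsub s0 hs0]
  have hzero : ∀ x, ω x * (F s0 - F (T x s0)) = 0 := by
    intro x
    apply le_antisymm _ (hpos x)
    exact (single_le_sum (f := fun x => ω x * (F s0 - F (T x s0))) (fun y _ => hpos y)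
      (mem_univ x)).trans hsum
  have hall : ∀ t ∈ S, F t = F s0 := by
    intro t ht
    obtain ⟨x, hx, hxt⟩ := hirr s0 hs0 t ht
    have h2 := (mul_eq_zero.mp (hzero x)).resolve_left hx.ne'
    rw [hxt] at h2
    linarith
  rw [hall s hs, hall t ht]

end Pool.Agent.Lib.MP_87d05f_lc.DI
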