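import Pool.Agent.Lib.MP_87d05f_lc.DI.Stm

/-!
# DICHOTOMY, piece s0: idempotent binary fractional polymorphisms
-/

set_option autoImplicit false

namespace Pool.Agent.Lib.MP_87d05f_lc.DI

open Finset

/-- push forward -/
private def s0_push {P X : Type} [Fintype P] [DecidableEq X] (c : P → ℚ) (T : P → X) (k : X) : ℚ :=
  ∑ p, if T p = k then c p else 0

private theorem s0_push_sum {P X : Type} [Fintype P] [Fintype X] [DecidableEq X] (c : P → ℚ)
    (T : P → X) (F : X → ℚ) : ∑ k, s0_push c T k * F k = ∑ p, c p * F (T p) := by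
  unfold s0_push
  simp only [Finset.sum_mul, ite_mul, zero_mul]
  rw [Finset.sum_comm]
  refine Finset.sum_congr rfl fun p _ => ?_
  rw [Finset.sum_ite_eq]
  simp

private theorem s0_push_one {P X : Type} [Fintype P] [Fintype X] [DecidableEq X] (c : P → ℚ)
    (T : P → X) : ∑ k, s0_push c T k = ∑ p, c p := by
  have h := s0_push_sum c T (fun _ => 1)
  simpa using h

private theorem s0_push_nonneg {P X : Type} [Fintype P] [DecidableEq X] (c : P → ℚ)
    (T : P → X) (hc : ∀ p, 0 ≤ c p) (k : X) : 0 ≤ s0_push c T k := by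
  unfold s0_push
  refine Finset.sum_nonneg fun p _ => ?_
  split_ifs
  · exact hc p
  · exact le_refl _

private theorem s0_push_pos {P X : Type} [Fintype P] [DecidableEq X] (c : P → ℚ)
    (T : P → X) (hc : ∀ p, 0 ≤ c p) (p : P) (hp : 0 < c p) : 0 < s0_push c T (T p) := by
  unfold s0_push
  refine lt_of_lt_of_le hp ?_
  have h := Finset.single_le_sum (f := fun q => if T q = T p then c q else 0)
    (s := Finset.univ) (fun q _ => by
      show 0 ≤ if T q = T p then c q else 0
      split_ifs
      · exact hc q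
      · exact le_refl _) (Finset.mem_univ p)
  simpa using h

private theorem s0_push_ne {P X : Type} [Fintype P] [DecidableEq X] (c : P → ℚ)
    (T : P → X) (k : X) (h : s0_push c T k ≠ 0) : ∃ p, T p = k ∧ c p ≠ 0 := by
  unfold s0_push at h
  obtain ⟨p, -, hp⟩ := Finset.exists_ne_zero_of_sum_ne_zero h
  by_cases h1 : T p = k
  · exact ⟨p, h1, by simpa [h1] using hp⟩
  · simp [h1] at hp

/-- [s0] -/
theorem s0 : S0S := by
  intro D ι _ _ ar f
  have hpr : ∀ g : D → D → D, (g = (fun x _ => x) ∨ g = (fun _ y => y)) → InS f g := by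
    intro g hg
    refine ⟨s0_push (fun _ : Bool => (1 / 2 : ℚ))
      (fun b => if b then (fun x _ => x) else (fun _ y => y)), ⟨⟨?_, ?_⟩, ?_⟩, ?_, ?_⟩
    · exact s0_push_nonneg _ _ (fun _ => by norm_num)
    · rw [s0_push_one]
      simp
    · intro i x y
      rw [s0_push_sum _ _ (fun g : D → D → D => f i (fun j => g (x j) (y j)))]
      simp only [Fintype.sum_bool, if_true, Bool.false_eq_true, if_false]
      linarith
    · intro g' hg'
      obtain ⟨b, hb, -⟩ := s0_push_ne _ _ _ hg'
      rw [← hb]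
      cases b
      · intro d
        rfl
      · intro d
        rfl
    · rcases hg with hg | hg
      · rw [hg]
        exact s0_push_pos _ (fun b : Bool => if b then (fun (x _ : D) => x) else (fun _ y => y))
          (fun _ => by norm_num) true (by norm_num)
      · rw [hg]
        exact s0_push_pos _ (fun b : Bool => if b then (fun (x _ : D) => x) else (fun _ y => y))
          (fun _ => by norm_num) false (by norm_num)
  have hid : ∀ g, InS f g → Idem g := by
    rintro g ⟨ω, -, h2, h3⟩
    exact h2 g h3.ne'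
  refine ⟨hpr _ (Or.inl rfl), hpr _ (Or.inr rfl), hid, ?_, ?_⟩
  · rintro g g₁ ⟨ω, ⟨⟨h1, h2⟩, h3⟩, h4, h5⟩ ⟨ω₁, ⟨⟨k1, k2⟩, k3⟩, k4, k5⟩
    refine ⟨s0_push (fun p : (D → D → D) × (D → D → D) => ω p.1 * ω₁ p.2)
      (fun p => fun x y => p.1 (p.2 x y) (p.2 y x)), ⟨⟨?_, ?_⟩, ?_⟩, ?_, ?_⟩
    · exact s0_push_nonneg _ _ (fun p => mul_nonneg (h1 _) (k1 _))
    · rw [s0_push_one, Fintype.sum_prod_type]
      simp only [← Finset.mul_sum, k2, mul_one, h2]
    · intro i x y
      rw [s0_push_sum _ _ (fun g : D → D → D => f i (fun j => g (x j) (y j))),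
        Fintype.sum_prod_type_right]
      have e1 : ∀ b : D → D → D, ω₁ b * ((f i (fun j => b (x j) (y j)) +
          f i (fun j => b (y j) (x j))) / 2) ≤
          ∑ a, ω a * ω₁ b * f i (fun j => a (b (x j) (y j)) (b (y j) (x j))) := by
        intro b
        have e2 := h3 i (fun j => b (x j) (y j)) (fun j => b (y j) (x j))
        have e3 := mul_le_mul_of_nonneg_left e2 (k1 b)
        refine le_trans e3 (le_of_eq ?_)
        rw [Finset.mul_sum]
        refine Finset.sum_congr rfl fun a _ => ?_
        ring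
      refine le_trans ?_ (Finset.sum_le_sum fun b _ => e1 b)
      have e4 := k3 i x y
      have e5 := k3 i y x
      have e6 : ∑ b, ω₁ b * ((f i (fun j => b (x j) (y j)) + f i (fun j => b (y j) (x j))) / 2) =
          ((∑ b, ω₁ b * f i (fun j => b (x j) (y j))) +
            ∑ b, ω₁ b * f i (fun j => b (y j) (x j))) / 2 := by
        rw [← Finset.sum_add_distrib, Finset.sum_div]
        refine Finset.sum_congr rfl fun a _ => ?_
        ring
      rw [e6]
      linarith
    · intro g' hg'
      obtain ⟨p, hp, hp0⟩ := s0_push_ne _ _ _ hg'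
      have a1 := h4 p.1 (fun h => hp0 (by simp [h]))
      have a2 := k4 p.2 (fun h => hp0 (by simp [h]))
      rw [← hp]
      intro d
      show p.1 (p.2 d d) (p.2 d d) = d
      rw [a2 d, a1 d]
    · exact s0_push_pos _ (fun p : (D → D → D) × (D → D → D) =>
        fun x y => p.1 (p.2 x y) (p.2 y x)) (fun p => mul_nonneg (h1 _) (k1 _)) (g, g₁)
        (mul_pos h5 k5)
  · classical
    have hch : ∀ g : D → D → D, ∃ ω : (D → D → D) → ℚ, InS f g →
        (Pol2 f ω ∧ (∀ g', ω g' ≠ 0 → Idem g') ∧ 0 < ω g) := by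
      intro g
      by_cases h : InS f g
      · obtain ⟨ω, hω⟩ := h
        exact ⟨ω, fun _ => hω⟩
      · exact ⟨0, fun h' => absurd h' h⟩
    choose W hW using hch
    set S : Finset (D → D → D) := Finset.univ.filter (fun g => InS f g) with hS
    have hmem : ∀ g, g ∈ S ↔ InS f g := fun g => by simp [hS]
    have hSpos : (0 : ℚ) < S.card := by
      have : 0 < S.card := Finset.card_pos.2 ⟨_, (hmem _).2 (hpr _ (Or.inl rfl))⟩
      exact_mod_cast this
    refine ⟨fun k => (∑ g ∈ S, W g k) / S.card, ⟨⟨?_, ?_⟩, ?_⟩, ?_, ?_⟩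
    · intro k
      refine div_nonneg (Finset.sum_nonneg fun g hg => ?_) hSpos.le
      exact (hW g ((hmem g).1 hg)).1.1.1 k
    · rw [← Finset.sum_div, Finset.sum_comm]
      have : ∀ g ∈ S, ∑ k, W g k = 1 := fun g hg => (hW g ((hmem g).1 hg)).1.1.2
      rw [Finset.sum_congr rfl this, Finset.sum_const, nsmul_eq_mul, mul_one,
        div_self hSpos.ne']
    · intro i x y
      have e1 : ∑ k : D → D → D, (∑ g ∈ S, W g k) / S.card * f i (fun j => k (x j) (y j)) =
          (∑ g ∈ S, ∑ k, W g k * f i (fun j => k (x j) (y j))) / S.card := by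
        rw [Finset.sum_comm, Finset.sum_div]
        refine Finset.sum_congr rfl fun k _ => ?_
        rw [div_mul_eq_mul_div, Finset.sum_mul]
      rw [e1, le_div_iff₀ hSpos]
      have e2 : ∑ g ∈ S, (f i x + f i y) / 2 ≤
          ∑ g ∈ S, ∑ k, W g k * f i (fun j => k (x j) (y j)) :=
        Finset.sum_le_sum fun g hg => (hW g ((hmem g).1 hg)).1.2 i x y
      rw [Finset.sum_const, nsmul_eq_mul] at e2
      linarith
    · intro k hk
      have hk' : ∑ g ∈ S, W g k ≠ 0 := by
        intro h
        apply hk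
        show (∑ g ∈ S, W g k) / S.card = 0
        rw [h, zero_div]
      obtain ⟨g, hg, hg0⟩ := Finset.exists_ne_zero_of_sum_ne_zero hk'
      exact (hW g ((hmem g).1 hg)).2.1 k hg0
    · intro g hg
      refine div_pos ?_ hSpos
      refine lt_of_lt_of_le (hW g hg).2.2 ?_
      exact Finset.single_le_sum (f := fun g' => W g' g)
        (fun g' hg' => (hW g' ((hmem g').1 hg')).1.1.1 g) ((hmem g).2 hg)

end Pool.Agent.Lib.MP_87d05f_lc.DI
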