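import Mathlib
import Pool.Agent.Lib.MP_87d05f_lc.DI.Stm

set_option autoImplicit false

/-!
# [DI s1] symmetrisation by duality (helper94)
-/

namespace Pool.Agent.Lib.MP_87d05f_lc.DI

open Finset

/-- the value of an operation for the weights `w` -/
def s1_Phi {D ι : Type} [Fintype D] [Fintype ι] {ar : ι → ℕ} (f : Pay D ar)
    (w : Scp ar (D × D) → ℚ) (g : D → D → D) : ℚ :=
  ∑ c, w c * f c.1 (fun j => g (c.2 j).1 (c.2 j).2)

/-- push forward of a weight on a subtype -/
theorem s1_push {D : Type} [Fintype D] [DecidableEq D] (P : (D → D → D) → Prop)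
    [Fintype {g : D → D → D // P g}] (ω : {g : D → D → D // P g} → ℚ) (F : (D → D → D) → ℚ) :
    ∑ g, (∑ x : {g : D → D → D // P g}, if x.1 = g then ω x else 0) * F g =
      ∑ x : {g : D → D → D // P g}, ω x * F x.1 := by
  have h1 : ∀ g : D → D → D, (∑ x : {g : D → D → D // P g}, if x.1 = g then ω x else 0) * F g =
      ∑ x : {g : D → D → D // P g}, (if x.1 = g then ω x * F x.1 else 0) := by
    intro g
    rw [Finset.sum_mul]
    refine Finset.sum_congr rfl fun x _ => ?_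
    split_ifs with h
    · rw [h]
    · simp
  rw [Finset.sum_congr rfl fun g _ => h1 g, Finset.sum_comm]
  refine Finset.sum_congr rfl fun x _ => ?_
  rw [Finset.sum_ite_eq]
  simp

/-- the number of symmetric pairs -/
def s1_N {D : Type} [Fintype D] [DecidableEq D] (g : D → D → D) : ℕ :=
  (univ.filter (fun p : D × D => g p.1 p.2 = g p.2 p.1)).card

theorem s1 (hg : GordanS) (h0 : S0S) : S1S := by
  classical
  intro D ι _ _ _ ar f hsym
  by_contra hno
  obtain ⟨-, -, -, -, ω, hω, hωid, hωpos⟩ := h0 D ι ar f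
  obtain ⟨hωd, hωi⟩ := hω
  -- Gordan
  have hG := hg {g : D → D → D // Idem g ∧ ∀ x y, g x y = g y x} (Scp ar (D × D))
    (fun c g => f c.1 (fun j => g.1 (c.2 j).1 (c.2 j).2) -
      (f c.1 (fun j => (c.2 j).1) + f c.1 (fun j => (c.2 j).2)) / 2)
  have hG2 : ¬ ∃ ω : {g : D → D → D // Idem g ∧ ∀ x y, g x y = g y x} → ℚ, Dist ω ∧
      ∀ c : Scp ar (D × D), 0 ≤ ∑ x, ω x * (f c.1 (fun j => x.1 (c.2 j).1 (c.2 j).2) -
      (f c.1 (fun j => (c.2 j).1) + f c.1 (fun j => (c.2 j).2)) / 2) := by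
    rintro ⟨τ, hτ, hτi⟩
    apply hno
    refine ⟨fun g => ∑ x : {g : D → D → D // Idem g ∧ ∀ x y, g x y = g y x},
      if x.1 = g then τ x else 0, ⟨⟨?_, ?_⟩, ?_⟩, ?_⟩
    · intro g
      refine Finset.sum_nonneg fun x _ => ?_
      split_ifs
      · exact hτ.1 x
      · exact le_refl _
    · have := s1_push (fun g => Idem g ∧ ∀ x y, g x y = g y x) τ (fun _ => 1)
      simp only [mul_one] at this
      rw [this]
      exact hτ.2
    · intro i x y
      have h1 := s1_push (fun g => Idem g ∧ ∀ x y, g x y = g y x) τ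
        (fun g => f i (fun j => g (x j) (y j)))
      simp only at h1 ⊢
      rw [h1]
      have h2 := hτi ⟨i, fun j => (x j, y j)⟩
      simp only at h2
      have h3 : ∑ z : {g : D → D → D // Idem g ∧ ∀ x y, g x y = g y x},
          τ z * (f i (fun j => z.1 (x j) (y j)) - (f i (fun j => x j) + f i (fun j => y j)) / 2) =
          ∑ z : {g : D → D → D // Idem g ∧ ∀ x y, g x y = g y x},
          τ z * f i (fun j => z.1 (x j) (y j)) - (f i x + f i y) / 2 := by
        have h4 : ∀ z : {g : D → D → D // Idem g ∧ ∀ x y, g x y = g y x},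
            τ z * (f i (fun j => z.1 (x j) (y j)) - (f i (fun j => x j) + f i (fun j => y j)) / 2) =
            τ z * f i (fun j => z.1 (x j) (y j)) - τ z * ((f i x + f i y) / 2) := by
          intro z; ring
        rw [Finset.sum_congr rfl fun z _ => h4 z, Finset.sum_sub_distrib, ← Finset.sum_mul, hτ.2,
          one_mul]
      rw [h3] at h2
      linarith
    · intro g hg2 x y
      have : ∃ z ∈ (univ : Finset {g : D → D → D // Idem g ∧ ∀ x y, g x y = g y x}),
          (if z.1 = g then τ z else 0) ≠ 0 := Finset.exists_ne_zero_of_sum_ne_zero hg2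
      obtain ⟨z, -, hz⟩ := this
      have hzg : z.1 = g := by
        by_contra hne
        exact hz (if_neg hne)
      rw [← hzg]
      exact z.2.2 x y
  obtain ⟨w, hw, hwlt⟩ := hG hG2
  -- the potential
  let Φ : (D → D → D) → ℚ := s1_Phi f w
  let B : ℚ := ∑ c : Scp ar (D × D), w c * ((f c.1 (fun j => (c.2 j).1) +
    f c.1 (fun j => (c.2 j).2)) / 2)
  let Γ : (D → D → D) → ℚ := fun g => Φ g + Φ (fun x y => g y x)
  have hΦdef : ∀ g, Φ g = ∑ c : Scp ar (D × D), w c * f c.1 (fun j => g (c.2 j).1 (c.2 j).2) :=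
    fun _ => rfl
  have hΓdef : ∀ g, Γ g = Φ g + Φ (fun x y => g y x) := fun _ => rfl
  have hBdef : B = ∑ c : Scp ar (D × D), w c * ((f c.1 (fun j => (c.2 j).1) +
    f c.1 (fun j => (c.2 j).2)) / 2) := rfl
  have hΦlt : ∀ g : D → D → D, Idem g → (∀ x y, g x y = g y x) → Φ g < B := by
    intro g hgi hgs
    have h1 := hwlt ⟨g, hgi, hgs⟩
    simp only at h1
    have h2 : ∑ c : Scp ar (D × D), w c * (f c.1 (fun j => g (c.2 j).1 (c.2 j).2) -
      (f c.1 (fun j => (c.2 j).1) + f c.1 (fun j => (c.2 j).2)) / 2) = Φ g - B := by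
      rw [hΦdef, hBdef, ← Finset.sum_sub_distrib]
      exact Finset.sum_congr rfl fun c _ => by ring
    rw [h2] at h1
    linarith
  -- one step
  have hstep1 : ∀ g₀ : D → D → D, Γ g₀ / 2 ≤
      ∑ g, ω g * Φ (fun x y => g (g₀ x y) (g₀ y x)) := by
    intro g₀
    have h1 : ∀ c : Scp ar (D × D),
        w c * ((f c.1 (fun j => g₀ (c.2 j).1 (c.2 j).2) +
          f c.1 (fun j => g₀ (c.2 j).2 (c.2 j).1)) / 2) ≤
        ∑ g, ω g * (w c * f c.1 (fun j => g (g₀ (c.2 j).1 (c.2 j).2) (g₀ (c.2 j).2 (c.2 j).1))) := by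
      intro c
      have h2 := mul_le_mul_of_nonneg_left (hωi c.1 (fun j => g₀ (c.2 j).1 (c.2 j).2)
        (fun j => g₀ (c.2 j).2 (c.2 j).1)) (hw c)
      refine h2.trans (le_of_eq ?_)
      rw [Finset.mul_sum]
      exact Finset.sum_congr rfl fun g _ => by ring
    have h3 := Finset.sum_le_sum fun c (_ : c ∈ (univ : Finset (Scp ar (D × D)))) => h1 c
    have h4 : ∑ c : Scp ar (D × D), w c * ((f c.1 (fun j => g₀ (c.2 j).1 (c.2 j).2) +
          f c.1 (fun j => g₀ (c.2 j).2 (c.2 j).1)) / 2) = Γ g₀ / 2 := by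
      rw [hΓdef, hΦdef, hΦdef, ← Finset.sum_add_distrib, Finset.sum_div]
      exact Finset.sum_congr rfl fun c _ => by ring
    have h5 : ∑ c : Scp ar (D × D), ∑ g, ω g * (w c * f c.1 (fun j =>
        g (g₀ (c.2 j).1 (c.2 j).2) (g₀ (c.2 j).2 (c.2 j).1))) =
        ∑ g, ω g * Φ (fun x y => g (g₀ x y) (g₀ y x)) := by
      rw [Finset.sum_comm]
      refine Finset.sum_congr rfl fun g _ => ?_
      rw [hΦdef, Finset.mul_sum]
    rw [h4, h5] at h3
    exact h3
  have hstep : ∀ g₀ : D → D → D, Γ g₀ ≤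
      ∑ g, ω g * Γ (fun x y => g (g₀ x y) (g₀ y x)) := by
    intro g₀
    have h1 := hstep1 g₀
    have h2 := hstep1 (fun x y => g₀ y x)
    have h3 : Γ (fun x y => g₀ y x) = Γ g₀ := by
      rw [hΓdef, hΓdef, add_comm]
    rw [h3] at h2
    have h4 : ∑ g, ω g * Γ (fun x y => g (g₀ x y) (g₀ y x)) =
        ∑ g, ω g * Φ (fun x y => g (g₀ x y) (g₀ y x)) +
        ∑ g, ω g * Φ (fun x y => g (g₀ y x) (g₀ x y)) := by
      rw [← Finset.sum_add_distrib]
      refine Finset.sum_congr rfl fun g _ => ?_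
      rw [hΓdef]
      ring
    rw [h4]
    linarith
  -- the maximum
  have hne0 : (univ.filter (fun g : D → D → D => Idem g)).Nonempty :=
    ⟨fun x _ => x, Finset.mem_filter.2 ⟨Finset.mem_univ _, fun _ => rfl⟩⟩
  obtain ⟨g₁, hg₁, hmax1⟩ := Finset.exists_max_image _ Γ hne0
  have hne1 : ((univ.filter (fun g : D → D → D => Idem g)).filter
      (fun g => Γ g = Γ g₁)).Nonempty := ⟨g₁, Finset.mem_filter.2 ⟨hg₁, rfl⟩⟩
  obtain ⟨g₀, hg₀, hmax0⟩ := Finset.exists_max_image _ s1_N hne1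
  obtain ⟨hg₀a, hg₀b⟩ := Finset.mem_filter.1 hg₀
  have hg₀i : Idem g₀ := (Finset.mem_filter.1 hg₀a).2
  have hmaxΓ : ∀ g : D → D → D, Idem g → Γ g ≤ Γ g₀ := by
    intro g hgi
    rw [hg₀b]
    exact hmax1 g (Finset.mem_filter.2 ⟨Finset.mem_univ _, hgi⟩)
  have hstar : ∀ g : D → D → D, Idem g → Idem (fun x y => g (g₀ x y) (g₀ y x)) := by
    intro g hgi d
    show g (g₀ d d) (g₀ d d) = d
    rw [hg₀i d, hgi d]
  have heq : ∀ g : D → D → D, InS f g → Γ (fun x y => g (g₀ x y) (g₀ y x)) = Γ g₀ := by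
    intro g hgS
    by_contra hne
    have hgpos := hωpos g hgS
    have hgi : Idem g := hωid g (ne_of_gt hgpos)
    have hlt : Γ (fun x y => g (g₀ x y) (g₀ y x)) < Γ g₀ :=
      lt_of_le_of_ne (hmaxΓ _ (hstar g hgi)) hne
    have h1 : ∑ g, ω g * Γ (fun x y => g (g₀ x y) (g₀ y x)) < ∑ g, ω g * Γ g₀ := by
      refine Finset.sum_lt_sum ?_ ⟨g, Finset.mem_univ _, mul_lt_mul_of_pos_left hlt hgpos⟩
      intro g' _
      by_cases hz : ω g' = 0
      · rw [hz, zero_mul, zero_mul]
      · exact mul_le_mul_of_nonneg_left (hmaxΓ _ (hstar g' (hωid g' hz))) (hωd.1 g')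
    rw [← Finset.sum_mul, hωd.2, one_mul] at h1
    exact absurd (hstep g₀) (not_le.2 h1)
  have hsymm : ∀ x y, g₀ x y = g₀ y x := by
    by_contra hns
    push Not at hns
    obtain ⟨x, y, hxy⟩ := hns
    obtain ⟨g, hgS, hgcd⟩ := hsym (g₀ x y) (g₀ y x)
    have hgi : Idem g := hωid g (ne_of_gt (hωpos g hgS))
    have hmem : (fun x y => g (g₀ x y) (g₀ y x)) ∈
        (univ.filter (fun g : D → D → D => Idem g)).filter (fun g => Γ g = Γ g₁) := by
      refine Finset.mem_filter.2 ⟨Finset.mem_filter.2 ⟨Finset.mem_univ _, hstar g hgi⟩, ?_⟩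
      rw [heq g hgS, hg₀b]
    have h1 := hmax0 _ hmem
    have h2 : s1_N g₀ < s1_N (fun x y => g (g₀ x y) (g₀ y x)) := by
      unfold s1_N
      apply Finset.card_lt_card
      rw [Finset.ssubset_iff_of_subset]
      · refine ⟨(x, y), ?_, ?_⟩
        · simp only [Finset.mem_filter, Finset.mem_univ, true_and]
          exact hgcd
        · simp only [Finset.mem_filter, Finset.mem_univ, true_and]
          exact hxy
      · intro p hp
        simp only [Finset.mem_filter, Finset.mem_univ, true_and] at hp ⊢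
        rw [hp]
    exact absurd h1 (not_le.2 h2)
  -- conclusion
  have h1 := hΦlt g₀ hg₀i hsymm
  have h2 : Γ g₀ = 2 * Φ g₀ := by
    rw [hΓdef]
    have : (fun x y => g₀ y x) = g₀ := by
      funext a b
      exact (hsymm a b).symm
    rw [this]
    ring
  have h3 : Γ (fun x _ => x) = 2 * B := by
    rw [hΓdef, hΦdef, hΦdef, hBdef, ← Finset.sum_add_distrib, Finset.mul_sum]
    exact Finset.sum_congr rfl fun c _ => by ring
  have h4 := hmaxΓ (fun x _ => x) (fun _ => rfl)
  rw [h3, h2] at h4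
  linarith

end Pool.Agent.Lib.MP_87d05f_lc.DI
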