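import Mathlib
import Pool.Agent.Lib.MP_87d05f_lc.DI.Stm

set_option autoImplicit false

/-!
Piece [s2]: recurrent pairs.
-/

namespace Pool.Agent.Lib.MP_87d05f_lc.DI

open Finset

/-- the orbit of a pair -/
noncomputable def s2_orb {D ι : Type} [Fintype D] [DecidableEq D] {ar : ι → ℕ} (f : Pay D ar)
    (p : D × D) : Finset (D × D) := by
  classical
  exact univ.filter (fun q => ∃ g, InS f g ∧ g p.1 p.2 = q.1 ∧ g p.2 p.1 = q.2)

theorem s2_mem {D ι : Type} [Fintype D] [DecidableEq D] {ar : ι → ℕ} (f : Pay D ar)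
    (p q : D × D) :
    q ∈ s2_orb f p ↔ ∃ g, InS f g ∧ g p.1 p.2 = q.1 ∧ g p.2 p.1 = q.2 := by
  classical
  simp [s2_orb]

theorem s2 (h : S0S) : S2S := by
  classical
  intro D ι _ _ ar f a b hab
  obtain ⟨hp1, _, _, hst, _⟩ := h D ι ar f
  have hne : ∃ n, ∃ p : D × D, (∀ g, InS f g → g p.1 p.2 ≠ g p.2 p.1) ∧
      (s2_orb f p).card = n := ⟨_, (a, b), hab, rfl⟩
  obtain ⟨p, hP, hcard⟩ := Nat.find_spec hne
  refine ⟨p.1, p.2, hP, ?_⟩
  intro g hg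
  set q : D × D := (g p.1 p.2, g p.2 p.1) with hq
  have hPq : ∀ g', InS f g' → g' q.1 q.2 ≠ g' q.2 q.1 := by
    intro g' hg'
    exact hP _ (hst g' g hg' hg)
  have hsub : s2_orb f q ⊆ s2_orb f p := by
    intro r hr
    obtain ⟨g', hg', h1, h2⟩ := (s2_mem f q r).1 hr
    exact (s2_mem f p r).2 ⟨_, hst g' g hg' hg, h1, h2⟩
  have hmin : (s2_orb f p).card ≤ (s2_orb f q).card := by
    rw [hcard]
    exact Nat.find_min' hne ⟨q, hPq, rfl⟩
  have heq : s2_orb f q = s2_orb f p := Finset.eq_of_subset_of_card_le hsub hmin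
  have hpm : p ∈ s2_orb f p := (s2_mem f p p).2 ⟨_, hp1, rfl, rfl⟩
  rw [← heq] at hpm
  obtain ⟨g', hg', h1, h2⟩ := (s2_mem f q p).1 hpm
  exact ⟨g', hg', h1, h2⟩

end Pool.Agent.Lib.MP_87d05f_lc.DI
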