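import Pool.Agent.Lib.MP_87d05f_lc.DI.Stm

set_option autoImplicit false

namespace Pool.Agent.Lib.MP_87d05f_lc.DI

open Finset

/-- [s3] constancy on the orbit -/
theorem s3 (hm : MaxpS) (h0 : S0S) (h1 : W1S) : S3S := by
  intro D ι _ _ _ ar f a b hrec h hh g hg
  obtain ⟨hp1, _, _, hstar, ω, hω, hid, hsupp⟩ := h0 D ι ar f
  have hpos : ∀ k, 0 < ω k → InS f k := fun k hk => ⟨ω, hω, hid, hk⟩
  let S : Set (D × D) := {s | ∃ k, InS f k ∧ k a b = s.1 ∧ k b a = s.2}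
  let T : (D → D → D) → D × D → D × D := fun k s => (k s.1 s.2, k s.2 s.1)
  let F : D × D → ℚ := fun s => h s.1 s.2 + h s.2 s.1
  have hfin : S.Finite := Set.toFinite S
  have hT : ∀ k, 0 < ω k → ∀ s ∈ S, T k s ∈ S := by
    rintro k hk ⟨x, y⟩ ⟨k₁, hk₁, e1, e2⟩
    refine ⟨fun x y => k (k₁ x y) (k₁ y x), hstar k k₁ (hpos k hk) hk₁, ?_, ?_⟩
    · show k (k₁ a b) (k₁ b a) = k x y
      rw [show k₁ a b = x from e1, show k₁ b a = y from e2]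
    · show k (k₁ b a) (k₁ a b) = k y x
      rw [show k₁ a b = x from e1, show k₁ b a = y from e2]
  have hreach : ∀ s ∈ S, ∀ t ∈ S, ∃ k, 0 < ω k ∧ T k s = t := by
    rintro ⟨x, y⟩ ⟨k₁, hk₁, e1, e2⟩ ⟨u, v⟩ ⟨k₂, hk₂, e3, e4⟩
    obtain ⟨k', hk', e5, e6⟩ := hrec.2 k₁ hk₁
    rw [show k₁ a b = x from e1, show k₁ b a = y from e2] at e5 e6
    refine ⟨fun x y => k₂ (k' x y) (k' y x), hsupp _ (hstar k₂ k' hk₂ hk'), ?_⟩
    show (k₂ (k' x y) (k' y x), k₂ (k' y x) (k' x y)) = (u, v)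
    rw [e5, e6, show k₂ a b = u from e3, show k₂ b a = v from e4]
  have hsub : ∀ s ∈ S, F s ≤ ∑ k, ω k * F (T k s) := by
    rintro ⟨x, y⟩ _
    have e1 := h1 D ι ar f ω hω hid h hh x y y x
    have e2 := h1 D ι ar f ω hω hid h hh y x x y
    have e3 : ∑ k, ω k * F (T k (x, y)) =
        ∑ k, ω k * h (k x y) (k y x) + ∑ k, ω k * h (k y x) (k x y) := by
      rw [← Finset.sum_add_distrib]
      exact Finset.sum_congr rfl fun k _ => mul_add _ _ _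
    rw [e3]
    show h x y + h y x ≤ _
    linarith
  exact hm (D → D → D) (D × D) ω T S F hω.1 hfin hT hreach hsub (g a b, g b a)
    ⟨g, hg, rfl, rfl⟩ (a, b) ⟨_, hp1, rfl, rfl⟩

end Pool.Agent.Lib.MP_87d05f_lc.DI
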