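import Pool.Agent.Lib.MP_87d05f_lc.DI.Stm

set_option autoImplicit false

/-!
# [s4] The symmetric function of a recurrent pair
-/

namespace Pool.Agent.Lib.MP_87d05f_lc.DI

open Finset

theorem s4 (h0 : S0S) (h3 : S3S) (hw : W0S) (h2 : W2S) : S4S := by
  intro D ι _ _ _ _ ar f a b hU hR
  obtain ⟨hp1, hp2, _, hst, _⟩ := h0 D ι ar f
  obtain ⟨hw1, hw2, hw3, hw4, hw5, hw6, hw7, hw8⟩ := hw D ι ar f
  have hab : a ≠ b := hR.1 _ hp1
  obtain ⟨h, hh, hmax⟩ := h2 D ι ar f a b hab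
  -- the orbit
  obtain ⟨O, hO⟩ : ∃ O : D → D → Prop, ∀ x y, O x y ↔ ∃ g, InS f g ∧ g a b = x ∧ g b a = y :=
    ⟨fun x y => ∃ g, InS f g ∧ g a b = x ∧ g b a = y, fun _ _ => Iff.rfl⟩
  have hswap : ∀ x y, O x y → O y x := by
    intro x y hxy
    obtain ⟨g, hg, h1, h2⟩ := (hO x y).1 hxy
    exact (hO y x).2 ⟨fun x y => g y x, hst (fun _ y => y) g hp2 hg, h2, h1⟩
  have hOab : O a b := (hO a b).2 ⟨_, hp1, rfl, rfl⟩
  have hdiag : ∀ x, ¬ O x x := by
    intro x hx
    obtain ⟨g, hg, h1, h2⟩ := (hO x x).1 hx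
    exact hR.1 g hg (h1.trans h2.symm)
  have hle : ∀ x y, h x y ≤ h a b := fun x y => (hmax x y).1
  have heq : ∀ x y, h x y = h a b ↔ O x y := fun x y => (hmax x y).2.trans (hO x y).symm
  -- unary functions on the orbit
  have hu : ∀ u, W1 f u → ∀ x y, O x y → u x + u y = u a + u b := by
    intro u hu x y hxy
    obtain ⟨g, hg, h1, h2⟩ := (hO x y).1 hxy
    have := h3 D ι ar f a b hR (fun x _ => u x) (hw5 u hu) g hg
    rw [h1, h2] at this
    exact this
  have huniq : ∀ x y y', O x y → O x y' → y = y' := by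
    intro x y y' hxy hxy'
    by_contra hne
    obtain ⟨u, hu1, hu2⟩ := hU y
    have e1 := hu u hu1 x y hxy
    have e2 := hu u hu1 x y' hxy'
    have e3 := hu2 y' (fun e => hne e.symm)
    linarith
  -- the symmetric function
  obtain ⟨f₀, hf₀⟩ : ∃ f₀ : D → D → ℚ, ∀ x y, f₀ x y = h x y + h y x := ⟨_, fun _ _ => rfl⟩
  have hf₀W : W2 f f₀ := by
    have h1 : f₀ = fun x y => h x y + h y x := by
      funext x y
      exact hf₀ x y
    rw [h1]
    exact hw3 h (fun x y => h y x) hh (hw6 h hh)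
  have hsym : ∀ x y, f₀ x y = f₀ y x := by
    intro x y
    rw [hf₀, hf₀, add_comm]
  obtain ⟨H, hH⟩ : ∃ H : ℚ, H = h a b + h a b := ⟨_, rfl⟩
  have hfle : ∀ x y, f₀ x y ≤ H := by
    intro x y
    rw [hf₀, hH]
    exact add_le_add (hle x y) (hle y x)
  have hfeq : ∀ x y, f₀ x y = H ↔ O x y := by
    intro x y
    constructor
    · intro e
      rw [hf₀, hH] at e
      have e1 := hle x y
      have e2 := hle y x
      exact (heq x y).1 (by linarith)
    · intro e
      rw [hf₀, hH, (heq x y).2 e, (heq y x).2 (hswap x y e)]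
  -- the maximum over the second variable
  have hm : ∀ x, ∃ y, ∀ z, f₀ x z ≤ f₀ x y := by
    intro x
    obtain ⟨y, _, hy⟩ := Finset.exists_max_image (Finset.univ : Finset D) (f₀ x)
      Finset.univ_nonempty
    exact ⟨y, fun z => hy z (Finset.mem_univ z)⟩
  choose m hm using hm
  have hrW : W1 f (fun x => f₀ x (m x)) := by
    apply hw8 f₀ _ hf₀W
    intro x
    refine ⟨⟨m x, rfl⟩, ?_⟩
    rintro _ ⟨z, rfl⟩
    exact hm x z
  classical
  refine ⟨f₀, Finset.univ.filter (fun x => ∃ y, O x y), fun x => f₀ x (m x), H, hf₀W, hsym, ?_,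
    hrW, ?_, ?_⟩
  · have h1 : ({a, b} : Finset D) ⊆ Finset.univ.filter (fun x => ∃ y, O x y) := by
      intro x hx
      rw [Finset.mem_insert, Finset.mem_singleton] at hx
      rw [Finset.mem_filter]
      refine ⟨Finset.mem_univ _, ?_⟩
      rcases hx with rfl | rfl
      · exact ⟨_, hOab⟩
      · exact ⟨_, hswap _ _ hOab⟩
    have h2 := Finset.card_le_card h1
    rw [Finset.card_pair hab] at h2
    exact h2
  · intro x
    refine ⟨hfle _ _, ?_⟩
    rw [Finset.mem_filter]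
    constructor
    · intro e
      exact ⟨Finset.mem_univ _, m x, (hfeq _ _).1 e⟩
    · rintro ⟨_, y, hy⟩
      apply le_antisymm (hfle _ _)
      rw [← (hfeq x y).2 hy]
      exact hm x y
  · intro x hx y hy hxy
    rw [Finset.mem_filter] at hx hy
    obtain ⟨_, x', hx'⟩ := hx
    obtain ⟨_, y', hy'⟩ := hy
    have hv : W1 f (fun z => f₀ z x) := hw7 f₀ x hf₀W
    have e1 := hu _ hv x x' hx'
    have e2 := hu _ hv y y' hy'
    have e3 : f₀ x' x = H := (hfeq _ _).2 (hswap _ _ hx')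
    have e4 : f₀ y' x ≠ H := by
      intro e
      exact hxy (huniq y' x y ((hfeq _ _).1 e) (hswap _ _ hy'))
    have e5 : f₀ y' x < H := lt_of_le_of_ne (hfle _ _) e4
    rw [hsym x y]
    linarith

end Pool.Agent.Lib.MP_87d05f_lc.DI
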