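import Mathlib
import Pool.Agent.Lib.MP_87d05f_lc.DI.Stm

set_option autoImplicit false

/-!
# A unary function with exactly two maxima (helper22)
-/

namespace Pool.Agent.Lib.MP_87d05f_lc.DI

open Finset

/-- adding a small multiple of `t` to `r` selects the maxima of `t` among those of `r` -/
private lemma s5_small {D : Type} [Fintype D] [DecidableEq D] [Nonempty D] (E A : Finset D)
    (r t : D → ℚ) (R T : ℚ) (hr : ∀ x, r x ≤ R ∧ (r x = R ↔ x ∈ E)) (hA : A ⊆ E)
    (ht : ∀ x ∈ E, t x ≤ T ∧ (t x = T ↔ x ∈ A)) :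
    ∃ mu : ℚ, 0 ≤ mu ∧ ∀ x, r x + mu * t x ≤ R + mu * T ∧
      (r x + mu * t x = R + mu * T ↔ x ∈ A) := by
  obtain ⟨x₀, -, hx₀⟩ := Finset.exists_min_image (Finset.univ : Finset D)
    (fun x => if x ∈ E then (1 : ℚ) else (R - r x) / (1 + |t x - T|)) Finset.univ_nonempty
  set g : D → ℚ := fun x => if x ∈ E then (1 : ℚ) else (R - r x) / (1 + |t x - T|) with hg
  have hgpos : ∀ x, 0 < g x := by
    intro x
    simp only [hg]
    split_ifs with h
    · exact one_pos
    · have h1 : r x < R := lt_of_le_of_ne (hr x).1 fun h' => h ((hr x).2.1 h')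
      exact div_pos (by linarith) (by positivity)
  refine ⟨g x₀, (hgpos x₀).le, fun x => ?_⟩
  have hmu := hgpos x₀
  by_cases hxE : x ∈ E
  · have h1 := (hr x).2.2 hxE
    obtain ⟨h2, h3⟩ := ht x hxE
    rw [h1]
    refine ⟨by nlinarith, ?_⟩
    rw [← h3]
    constructor
    · intro h
      have : g x₀ * t x = g x₀ * T := by linarith
      exact mul_left_cancel₀ hmu.ne' this
    · intro h
      rw [h]
  · have h1 : r x < R := lt_of_le_of_ne (hr x).1 fun h' => hxE ((hr x).2.1 h')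
    have h2 : g x₀ ≤ (R - r x) / (1 + |t x - T|) := by
      have := hx₀ x (Finset.mem_univ x)
      simp only [if_neg hxE] at this
      exact this
    rw [le_div_iff₀ (by positivity)] at h2
    have h3 : t x - T ≤ |t x - T| := le_abs_self _
    have h4 : r x + g x₀ * t x < R + g x₀ * T := by nlinarith
    refine ⟨h4.le, ?_⟩
    constructor
    · intro h
      exact absurd h h4.ne
    · intro h
      exact absurd (hA h) hxE

/-- the combination `u_a + lam u_c` -/
private lemma s5_lam {D : Type} [DecidableEq D] (E : Finset D) (ua uc : D → ℚ)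
    (a c : D) (hc : c ∈ E) (hac : a ≠ c)
    (hua : ∀ x, x ≠ a → ua x < ua a) (huc : ∀ x, x ≠ c → uc x < uc c) :
    ∃ lam : ℚ, 0 < lam ∧ (∀ x ∈ E, ua x + lam * uc x ≤ ua a + lam * uc a) ∧
      ∃ x₀ ∈ E, x₀ ≠ a ∧ ua x₀ + lam * uc x₀ = ua a + lam * uc a := by
  have hne : (E.filter fun x => uc a < uc x).Nonempty :=
    ⟨c, Finset.mem_filter.2 ⟨hc, huc a hac⟩⟩
  obtain ⟨x₀, hx₀, hmin⟩ := Finset.exists_min_image _
    (fun x => (ua a - ua x) / (uc x - uc a)) hne
  rw [Finset.mem_filter] at hx₀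
  have hx₀a : x₀ ≠ a := by
    rintro rfl
    exact lt_irrefl _ hx₀.2
  have hpos : 0 < (ua a - ua x₀) / (uc x₀ - uc a) :=
    div_pos (by linarith [hua x₀ hx₀a]) (by linarith [hx₀.2])
  refine ⟨(ua a - ua x₀) / (uc x₀ - uc a), hpos, ?_, x₀, hx₀.1, hx₀a, ?_⟩
  · intro x hx
    by_cases hxc : uc a < uc x
    · have h1 := hmin x (Finset.mem_filter.2 ⟨hx, hxc⟩)
      rw [le_div_iff₀ (by linarith)] at h1
      linarith
    · have h1 : ua x ≤ ua a := by
        by_cases hxa : x = a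
        · rw [hxa]
        · exact (hua x hxa).le
      push Not at hxc
      nlinarith
  · have h1 : uc x₀ - uc a ≠ 0 := by
      have := hx₀.2
      intro h
      linarith
    have h2 : (ua a - ua x₀) / (uc x₀ - uc a) * (uc x₀ - uc a) = ua a - ua x₀ :=
      div_mul_cancel₀ _ h1
    linarith

/-- three elements exclude that all combinations are constant -/
private lemma s5_three {D : Type} (E : Finset D) (ua uc ud : D → ℚ) (a d : D)
    (hd : d ∈ E) (had : a ≠ d) (hud : ∀ x, x ≠ d → ud x < ud d) (l m n : ℚ) (hl : 0 < l)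
    (hm : 0 < m) (hn : 0 < n)
    (h1 : ∀ x ∈ E, ua x + l * uc x = ua a + l * uc a)
    (h2 : ∀ x ∈ E, ua x + m * ud x = ua a + m * ud a)
    (h3 : ∀ x ∈ E, uc x + n * ud x = uc a + n * ud a) : False := by
  have e1 := h1 d hd
  have e2 := h2 d hd
  have e3 := h3 d hd
  have e4 := hud a had
  have e5 : (l * n + m) * (ud d - ud a) = 0 := by
    linear_combination -e1 + e2 + l * e3
  rcases mul_eq_zero.1 e5 with h | h
  · have : 0 < l * n + m := by positivity
    exact this.ne' h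
  · linarith

theorem s5 (h : W0S) : S5S := by
  intro D ι _ _ _ _ ar f E r R hU
  obtain ⟨hadd, hsmul, -⟩ := h D ι ar f
  induction' hn : E.card using Nat.strong_induction_on with n ih generalizing E r R
  intro h2 hr hrE
  by_cases h3 : E.card = 2
  · obtain ⟨p, q, hpq, rfl⟩ := Finset.card_eq_two.1 h3
    refine ⟨r, R, p, q, hr, by simp, by simp, hpq, fun x => ⟨(hrE x).1, ?_⟩⟩
    rw [(hrE x).2]
    simp
  -- descent
  have hdesc : ∀ A : Finset D, A ⊂ E → 2 ≤ A.card → ∀ t : D → ℚ, W1 f t → ∀ T : ℚ,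
      (∀ x ∈ E, t x ≤ T ∧ (t x = T ↔ x ∈ A)) →
      ∃ (s : D → ℚ) (S : ℚ) (p q : D), W1 f s ∧ p ∈ E ∧ q ∈ E ∧ p ≠ q ∧
        ∀ x, s x ≤ S ∧ (s x = S ↔ x = p ∨ x = q) := by
    intro A hA hA2 t ht T htT
    obtain ⟨mu, hmu, hmu2⟩ := s5_small E A r t R T hrE hA.1 htT
    obtain ⟨s, S, p, q, hs, hp, hq, hpq, hsx⟩ := ih A.card
      (by rw [← hn]; exact Finset.card_lt_card hA) A (fun x => r x + mu * t x) (R + mu * T) rfl
      hA2 (hadd _ _ hr (hsmul _ _ hmu ht)) hmu2
    exact ⟨s, S, p, q, hs, hA.1 hp, hA.1 hq, hpq, hsx⟩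
  by_contra hcon
  -- all combinations are constant
  have hconst : ∀ a ∈ E, ∀ c ∈ E, a ≠ c → ∀ ua uc : D → ℚ, W1 f ua → W1 f uc →
      (∀ x, x ≠ a → ua x < ua a) → (∀ x, x ≠ c → uc x < uc c) →
      ∃ lam : ℚ, 0 < lam ∧ ∀ x ∈ E, ua x + lam * uc x = ua a + lam * uc a := by
    intro a ha c hc hac ua uc hWa hWc hua huc
    obtain ⟨lam, hlam, hle, x₀, hx₀, hx₀a, hx₀e⟩ := s5_lam E ua uc a c hc hac hua huc
    refine ⟨lam, hlam, ?_⟩
    by_contra hne
    push Not at hne
    obtain ⟨y, hy, hyne⟩ := hne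
    refine hcon (hdesc (E.filter fun x => ua x + lam * uc x = ua a + lam * uc a) ?_ ?_
      (fun x => ua x + lam * uc x) (hadd _ _ hWa (hsmul _ _ hlam.le hWc))
      (ua a + lam * uc a) ?_)
    · rw [Finset.ssubset_iff_of_subset (Finset.filter_subset _ _)]
      exact ⟨y, hy, fun h' => hyne (Finset.mem_filter.1 h').2⟩
    · rw [show (2 : ℕ) = ({a, x₀} : Finset D).card from (Finset.card_pair hx₀a.symm).symm]
      refine Finset.card_le_card ?_
      intro x hx
      rw [Finset.mem_insert, Finset.mem_singleton] at hx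
      rcases hx with rfl | rfl
      · exact Finset.mem_filter.2 ⟨ha, rfl⟩
      · exact Finset.mem_filter.2 ⟨hx₀, hx₀e⟩
    · intro x hx
      refine ⟨hle x hx, ?_⟩
      rw [Finset.mem_filter]
      exact ⟨fun h' => ⟨hx, h'⟩, fun h' => h'.2⟩
  -- three elements
  have h4 : 2 < E.card := by omega
  obtain ⟨a, c, d, ha, hc, hd, hac, had, hcd⟩ := Finset.two_lt_card_iff.1 h4
  obtain ⟨ua, hWa, hua⟩ := hU a
  obtain ⟨uc, hWc, huc⟩ := hU c
  obtain ⟨ud, hWd, hud⟩ := hU d
  obtain ⟨l, hl, h1⟩ := hconst a ha c hc hac ua uc hWa hWc hua huc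
  obtain ⟨m, hm, h2'⟩ := hconst a ha d hd had ua ud hWa hWd hua hud
  obtain ⟨n', hn', h3'⟩ := hconst c hc d hd hcd uc ud hWc hWd huc hud
  refine s5_three E ua uc ud a d hd had hud l m n' hl hm hn' h1 h2' fun x hx => ?_
  rw [h3' x hx, h3' a ha]

end Pool.Agent.Lib.MP_87d05f_lc.DI
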