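import Pool.Agent.Lib.MP_87d05f_lc.DI.Stm

set_option autoImplicit false

namespace Pool.Agent.Lib.MP_87d05f_lc.DI

open Finset

/-- Farkas for arbitrary finite index types -/
theorem supp_farkas (h : FarkasS) (X I : Type) [Fintype X] [Fintype I] (A : I → X → ℚ)
    (b : I → ℚ) :
    (∃ x : X → ℚ, (∀ j, 0 ≤ x j) ∧ ∀ i, ∑ j, A i j * x j ≤ b i) ∨
    (∃ y : I → ℚ, (∀ i, 0 ≤ y i) ∧ (∀ j, 0 ≤ ∑ i, y i * A i j) ∧ ∑ i, y i * b i < 0) := by
  let eX := Fintype.equivFin X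
  let eI := Fintype.equivFin I
  rcases h (Fintype.card I) (Fintype.card X) (fun i j => A (eI.symm i) (eX.symm j))
    (fun i => b (eI.symm i)) with ⟨x, h1, h2⟩ | ⟨y, h1, h2, h3⟩
  · refine Or.inl ⟨fun j => x (eX j), fun j => h1 _, fun i => ?_⟩
    have h3 := h2 (eI i)
    rw [← Equiv.sum_comp eX] at h3
    simpa using h3
  · refine Or.inr ⟨fun i => y (eI i), fun i => h1 _, fun j => ?_, ?_⟩
    · have h4 := h2 (eX j)
      rw [← Equiv.sum_comp eI] at h4
      simpa using h4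
    · rw [← Equiv.sum_comp eI] at h3
      simpa using h3

theorem supp_one (h : FarkasS) (X C : Type) [Fintype X] [Fintype C] (M : C → X → ℚ) (x₀ : X)
    (hx : ¬ ∃ ω : X → ℚ, Dist ω ∧ (∀ c, 0 ≤ ∑ x, ω x * M c x) ∧ 0 < ω x₀) :
    ∃ w : C → ℚ, (∀ c, 0 ≤ w c) ∧ (∀ x, ∑ c, w c * M c x ≤ 0) ∧ ∑ c, w c * M c x₀ < 0 := by
  classical
  rcases supp_farkas h X (Option C)
    (fun i x => match i with
      | none => if x = x₀ then -1 else 0
      | some c => -M c x)
    (fun i => match i with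
      | none => -1
      | some _ => 0) with ⟨v, h1, h2⟩ | ⟨y, h1, h2, h3⟩
  · exfalso
    apply hx
    have h3 := h2 none
    simp only [ite_mul, zero_mul, Finset.sum_ite_eq', Finset.mem_univ, if_true] at h3
    have hv0 : 1 ≤ v x₀ := by linarith
    have hs : 0 < ∑ x, v x :=
      Finset.sum_pos' (fun x _ => h1 x) ⟨x₀, Finset.mem_univ _, by linarith⟩
    refine ⟨fun x => v x / ∑ x, v x, ⟨fun x => div_nonneg (h1 x) hs.le, ?_⟩, fun c => ?_, ?_⟩
    · rw [← Finset.sum_div]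
      exact div_self hs.ne'
    · have h4 := h2 (some c)
      simp only [neg_mul, Finset.sum_neg_distrib] at h4
      have h5 : ∑ x, v x / (∑ x, v x) * M c x = (∑ x, M c x * v x) / ∑ x, v x := by
        rw [Finset.sum_div]
        refine Finset.sum_congr rfl fun x _ => ?_
        ring
      rw [h5]
      exact div_nonneg (by linarith) hs.le
    · exact div_pos (by linarith) hs
  · simp only [Fintype.sum_option, mul_neg, mul_one, mul_zero, Finset.sum_const_zero,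
      add_zero] at h3
    have ht : 0 < y none := by linarith
    have h4 : ∀ x, ∑ c, y (some c) * M c x ≤ -(y none * (if x = x₀ then 1 else 0)) := by
      intro x
      have h5 := h2 x
      rw [Fintype.sum_option] at h5
      simp only [mul_neg, Finset.sum_neg_distrib] at h5
      by_cases hxx : x = x₀
      · rw [if_pos hxx] at h5 ⊢
        linarith
      · rw [if_neg hxx] at h5 ⊢
        linarith
    refine ⟨fun c => y (some c), fun c => h1 _, fun x => ?_, ?_⟩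
    · refine (h4 x).trans ?_
      split_ifs <;> linarith
    · have := h4 x₀
      rw [if_pos rfl] at this
      linarith

theorem supp (h : FarkasS) : SuppS := by
  classical
  intro X C _ _ M _
  let Q : X → Prop := fun x => ∃ ω : X → ℚ, Dist ω ∧ (∀ c, 0 ≤ ∑ x, ω x * M c x) ∧ 0 < ω x
  have h1 : ∀ x₀ : X, ∃ w : C → ℚ, (∀ c, 0 ≤ w c) ∧ (∀ x, ∑ c, w c * M c x ≤ 0) ∧
      (¬ Q x₀ → ∑ c, w c * M c x₀ < 0) := by
    intro x₀
    by_cases hx : Q x₀
    · exact ⟨fun _ => 0, fun _ => le_rfl, fun x => by simp, fun hc => absurd hx hc⟩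
    · obtain ⟨w, hw1, hw2, hw3⟩ := supp_one h X C M x₀ hx
      exact ⟨w, hw1, hw2, fun _ => hw3⟩
  choose w hw1 hw2 hw3 using h1
  have hsum : ∀ x, ∑ c, (∑ x₀, w x₀ c) * M c x = ∑ x₀, ∑ c, w x₀ c * M c x := by
    intro x
    rw [Finset.sum_comm]
    refine Finset.sum_congr rfl fun c _ => ?_
    rw [Finset.sum_mul]
  have hle : ∀ x, ∑ c, (∑ x₀, w x₀ c) * M c x ≤ 0 := by
    intro x
    rw [hsum]
    exact Finset.sum_nonpos fun x₀ _ => hw2 x₀ x
  refine ⟨fun c => ∑ x₀, w x₀ c, fun c => Finset.sum_nonneg fun x₀ _ => hw1 x₀ c, fun x =>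
    ⟨hle x, ?_, ?_⟩⟩
  · intro h0
    by_contra hx
    have h2 : ∑ x₀, ∑ c, w x₀ c * M c x < 0 := by
      refine Finset.sum_neg' (fun x₀ _ => hw2 x₀ x) ⟨x, Finset.mem_univ _, hw3 x hx⟩
    rw [hsum] at h0
    linarith
  · rintro ⟨ω, hω, hf, hpos⟩
    have h2 : 0 ≤ ∑ c, (∑ x₀, w x₀ c) * ∑ x, ω x * M c x :=
      Finset.sum_nonneg fun c _ => mul_nonneg (Finset.sum_nonneg fun x₀ _ => hw1 x₀ c) (hf c)
    have h3 : ∑ c, (∑ x₀, w x₀ c) * ∑ x, ω x * M c x =
        ∑ x, ω x * ∑ c, (∑ x₀, w x₀ c) * M c x := by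
      simp only [Finset.mul_sum]
      rw [Finset.sum_comm]
      refine Finset.sum_congr rfl fun x _ => Finset.sum_congr rfl fun c _ => ?_
      ring
    rw [h3] at h2
    have h4 : ∀ x ∈ (Finset.univ : Finset X), ω x * ∑ c, (∑ x₀, w x₀ c) * M c x ≤ 0 :=
      fun x _ => mul_nonpos_of_nonneg_of_nonpos (hω.1 x) (hle x)
    have h5 : ∑ x, ω x * ∑ c, (∑ x₀, w x₀ c) * M c x = 0 :=
      le_antisymm (Finset.sum_nonpos h4) h2
    have h6 := (Finset.sum_eq_zero_iff_of_nonpos h4).mp h5 x (Finset.mem_univ _)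
    exact (mul_eq_zero.mp h6).resolve_left hpos.ne'

end Pool.Agent.Lib.MP_87d05f_lc.DI
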