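import Pool.Agent.Lib.MP_87d05f_lc.DI.Stm

set_option autoImplicit false

/-!
# DICHOTOMY, piece u0: unary fractional polymorphisms, closure and full support
-/

namespace Pool.Agent.Lib.MP_87d05f_lc.DI

open Finset

section

variable {D ι : Type} [Fintype D] [DecidableEq D] {ar : ι → ℕ}

private lemma u0_id (f : Pay D ar) : InU f id := by
  classical
  refine ⟨fun h => if h = id then 1 else 0, ⟨⟨?_, ?_⟩, ?_⟩, ?_⟩
  · intro h
    dsimp only
    split_ifs
    · exact zero_le_one
    · exact le_rfl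
  · simp
  · intro i x
    apply le_of_eq
    simp only [ite_mul, one_mul, zero_mul]
    rw [Finset.sum_ite_eq' univ (id : D → D)]
    simp
  · simp

/-- push forward of the product distribution under composition -/
private def u0_comp (ω ω' : (D → D) → ℚ) (g : D → D) : ℚ :=
  ∑ p : (D → D) × (D → D), if (fun d => p.1 (p.2 d)) = g then ω p.1 * ω' p.2 else 0

private lemma u0_sum (ω ω' : (D → D) → ℚ) (F : (D → D) → ℚ) :
    ∑ g, u0_comp ω ω' g * F g = ∑ k, ω' k * ∑ h, ω h * F (fun d => h (k d)) := by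
  have h1 : ∑ g, u0_comp ω ω' g * F g =
      ∑ p : (D → D) × (D → D), ω p.1 * ω' p.2 * F (fun d => p.1 (p.2 d)) := by
    unfold u0_comp
    simp only [Finset.sum_mul]
    rw [Finset.sum_comm]
    refine Finset.sum_congr rfl fun p _ => ?_
    simp only [ite_mul, zero_mul]
    rw [Finset.sum_ite_eq]
    simp
  rw [h1, Fintype.sum_prod_type_right]
  refine Finset.sum_congr rfl fun k _ => ?_
  rw [Finset.mul_sum]
  refine Finset.sum_congr rfl fun h _ => ?_
  ring

private lemma u0_mul (f : Pay D ar) (h k : D → D) (hh : InU f h) (hk : InU f k) :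
    InU f (fun d => h (k d)) := by
  obtain ⟨ω, ⟨⟨hω0, hω1⟩, hωp⟩, hωh⟩ := hh
  obtain ⟨ω', ⟨⟨hω0', hω1'⟩, hωp'⟩, hωk⟩ := hk
  refine ⟨u0_comp ω ω', ⟨⟨?_, ?_⟩, ?_⟩, ?_⟩
  · intro g
    unfold u0_comp
    refine Finset.sum_nonneg fun p _ => ?_
    split_ifs
    · exact mul_nonneg (hω0 _) (hω0' _)
    · exact le_rfl
  · have h1 := u0_sum ω ω' (fun _ => 1)
    simp only [mul_one] at h1
    rw [h1, hω1]
    simp only [mul_one]
    exact hω1'
  · intro i x
    rw [u0_sum ω ω' (fun g => f i (fun j => g (x j)))]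
    calc f i x ≤ ∑ k, ω' k * f i (fun j => k (x j)) := hωp' i x
      _ ≤ ∑ k, ω' k * ∑ h, ω h * f i (fun j => h (k (x j))) := by
        refine Finset.sum_le_sum fun k _ => ?_
        exact mul_le_mul_of_nonneg_left (hωp i fun j => k (x j)) (hω0' k)
  · unfold u0_comp
    have h1 : (if (fun d => (h, k).1 ((h, k).2 d)) = (fun d => h (k d)) then
        ω (h, k).1 * ω' (h, k).2 else 0) ≤
        ∑ p : (D → D) × (D → D), if (fun d => p.1 (p.2 d)) = (fun d => h (k d)) then
          ω p.1 * ω' p.2 else 0 := by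
      refine Finset.single_le_sum (f := fun p : (D → D) × (D → D) =>
        if (fun d => p.1 (p.2 d)) = (fun d => h (k d)) then ω p.1 * ω' p.2 else 0)
        (fun p _ => ?_) (Finset.mem_univ (h, k))
      split_ifs
      · exact mul_nonneg (hω0 _) (hω0' _)
      · exact le_rfl
    rw [if_pos rfl] at h1
    exact (mul_pos hωh hωk).trans_le h1

private lemma u0_full (f : Pay D ar) : ∃ ω, Pol1 f ω ∧ ∀ h, InU f h → 0 < ω h := by
  classical
  have hch : ∀ h : {h : D → D // InU f h}, ∃ ω, Pol1 f ω ∧ 0 < ω h.1 := fun h => h.2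
  choose W hW hWp using hch
  have hne : Nonempty {h : D → D // InU f h} := ⟨⟨id, u0_id f⟩⟩
  have hc : (0 : ℚ) < (Fintype.card {h : D → D // InU f h} : ℚ) := by
    exact_mod_cast Fintype.card_pos
  refine ⟨fun x => (∑ h, W h x) / (Fintype.card {h : D → D // InU f h} : ℚ), ⟨⟨?_, ?_⟩, ?_⟩, ?_⟩
  · intro x
    exact div_nonneg (Finset.sum_nonneg fun h _ => (hW h).1.1 x) hc.le
  · rw [← Finset.sum_div, Finset.sum_comm]
    have h1 : ∀ h : {h : D → D // InU f h}, ∑ x, W h x = 1 := fun h => (hW h).1.2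
    simp only [h1]
    rw [Finset.sum_const, Finset.card_univ, nsmul_eq_mul, mul_one]
    exact div_self hc.ne'
  · intro i x
    have h1 : ∑ g, (∑ h, W h g) / (Fintype.card {h : D → D // InU f h} : ℚ) *
        f i (fun j => g (x j)) =
        (∑ h, ∑ g, W h g * f i (fun j => g (x j))) /
          (Fintype.card {h : D → D // InU f h} : ℚ) := by
      rw [Finset.sum_comm, Finset.sum_div]
      refine Finset.sum_congr rfl fun g _ => ?_
      rw [← Finset.sum_mul]
      ring
    rw [h1, le_div_iff₀ hc]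
    have h2 : f i x * (Fintype.card {h : D → D // InU f h} : ℚ) =
        ∑ _h : {h : D → D // InU f h}, f i x := by
      rw [Finset.sum_const, Finset.card_univ, nsmul_eq_mul, mul_comm]
    rw [h2]
    exact Finset.sum_le_sum fun h _ => (hW h).2 i x
  · intro h hh
    refine div_pos ?_ hc
    have h1 : W ⟨h, hh⟩ h ≤ ∑ g, W g h :=
      Finset.single_le_sum (f := fun g => W g h) (fun g _ => (hW g).1.1 h)
        (Finset.mem_univ (⟨h, hh⟩ : {h : D → D // InU f h}))
    exact (hWp ⟨h, hh⟩).trans_le h1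

end

theorem u0 : U0S := by
  intro D ι _ _ ar f
  exact ⟨u0_id f, u0_mul f, u0_full f⟩

end Pool.Agent.Lib.MP_87d05f_lc.DI
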