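import Pool.Agent.Lib.MP_87d05f_lc.DI.Stm

set_option autoImplicit false

namespace Pool.Agent.Lib.MP_87d05f_lc.DI

open Finset

theorem u1_iter {D ι : Type} [Fintype D] [DecidableEq D] (ar : ι → ℕ) (f : Pay D ar) (h : U0S)
    (p : D → D) (hp : InU f p) (n : ℕ) : InU f (p^[n]) := by
  obtain ⟨h0, h1, -⟩ := h D ι ar f
  induction n with
  | zero => exact h0
  | succ n ih =>
    have := h1 (p^[n]) p ih hp
    exact this

theorem u1_idem {D : Type} [Finite D] (h : D → D) :
    ∃ n : ℕ, 0 < n ∧ ∀ d, h^[n] (h^[n] d) = h^[n] d := by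
  obtain ⟨i, j, hij, he⟩ := Finite.exists_ne_map_eq_of_infinite (fun n : ℕ => h^[n])
  wlog hlt : i < j generalizing i j
  · exact this j i hij.symm he.symm (by omega)
  obtain ⟨p, rfl⟩ := Nat.exists_eq_add_of_lt hlt
  have hstep : ∀ m, i ≤ m → h^[m + (p + 1)] = h^[m] := by
    intro m hm
    obtain ⟨r, rfl⟩ := Nat.exists_eq_add_of_le' hm
    have h1 : h^[r + i + (p + 1)] = h^[r] ∘ h^[i + p + 1] := by
      rw [← Function.iterate_add]; congr 1; omega
    rw [h1, ← he, ← Function.iterate_add]
  have hmul : ∀ k m, i ≤ m → h^[m + (p + 1) * k] = h^[m] := by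
    intro k
    induction k with
    | zero => intro m _; simp
    | succ k ih =>
      intro m hm
      have : m + (p + 1) * (k + 1) = (m + (p + 1) * k) + (p + 1) := by ring
      rw [this, hstep _ (by nlinarith [Nat.zero_le ((p + 1) * k)]), ih m hm]
  refine ⟨(p + 1) * (i + 1), by positivity, ?_⟩
  intro d
  rw [← Function.iterate_add_apply]
  have := hmul (i + 1) ((p + 1) * (i + 1)) (by nlinarith [Nat.zero_le (p * (i + 1))])
  rw [this]

theorem u1 (h : U0S) : U1S := by
  intro D ι _ _ ar f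
  obtain ⟨h0, h1, -⟩ := h D ι ar f
  classical
  have hex : ∃ n : ℕ, ∃ k : D → D, InU f k ∧ (univ.image k).card = n := ⟨_, id, h0, rfl⟩
  obtain ⟨k, hk, hkn⟩ := Nat.find_spec hex
  have hmin : ∀ g, InU f g → (univ.image k).card ≤ (univ.image g).card := by
    intro g hg
    rw [hkn]
    exact Nat.find_min' hex ⟨g, hg, rfl⟩
  obtain ⟨n, hn, hid⟩ := u1_idem k
  have hsub : univ.image (k^[n]) ⊆ univ.image k := by
    intro x hx
    obtain ⟨d, -, rfl⟩ := mem_image.1 hx
    obtain ⟨m, rfl⟩ := Nat.exists_eq_succ_of_ne_zero hn.ne'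
    rw [Function.iterate_succ_apply']
    exact mem_image_of_mem _ (mem_univ _)
  refine ⟨k^[n], u1_iter ar f h k hk n, hid, ?_⟩
  intro g hg x y hxy
  have hc : ((univ.image (k^[n])).image g).card = (univ.image (k^[n])).card := by
    apply le_antisymm card_image_le
    calc (univ.image (k^[n])).card ≤ (univ.image k).card := card_le_card hsub
      _ ≤ (univ.image (fun d => g (k^[n] d))).card :=
          hmin _ (h1 _ _ hg (u1_iter ar f h k hk n))
      _ = ((univ.image (k^[n])).image g).card := by rw [image_image]; rfl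
  have hinj := card_image_iff.1 hc
  exact hinj (by simp) (by simp) hxy

end Pool.Agent.Lib.MP_87d05f_lc.DI
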