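import Pool.Agent.Lib.MP_87d05f_lc.DI.Stm

set_option autoImplicit false

namespace Pool.Agent.Lib.MP_87d05f_lc.DI

open Finset

theorem u2_iter {D ι : Type} [Fintype D] [DecidableEq D] (ar : ι → ℕ) (f : Pay D ar) (h : U0S)
    (p : D → D) (hp : InU f p) (n : ℕ) : InU f (p^[n]) := by
  obtain ⟨h0, h1, -⟩ := h D ι ar f
  induction n with
  | zero => exact h0
  | succ n ih =>
    have := h1 (p^[n]) p ih hp
    exact this

theorem u2 (h : U0S) : U2S := by
  intro D ι _ _ ar f e he g k hg hk
  obtain ⟨h0, h1, -⟩ := h D ι ar f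
  have hp : InU f (fun d => e (g d)) := h1 _ _ he.mem hg
  obtain ⟨i, j, hij, heq⟩ :=
    Finite.exists_ne_map_eq_of_infinite (fun n : ℕ => (fun d => e (g d))^[n])
  wlog hlt : i < j generalizing i j
  · exact this j i hij.symm heq.symm (by omega)
  obtain ⟨p, rfl⟩ := Nat.exists_eq_add_of_lt hlt
  have key : ∀ d, (fun d => e (g d))^[p + 1] (e d) = e d := by
    intro d
    have hq : (fun d => e (g d))^[p + 1] (e d) =
        e (g ((fun d => e (g d))^[p] (e d))) := by
      rw [Function.iterate_succ_apply']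
    rw [hq]
    apply he.inj _ (u2_iter ar f h _ hp i)
    have h2 := congrFun heq (e d)
    have h3 : (fun d => e (g d))^[i + p + 1] (e d) =
        (fun d => e (g d))^[i] ((fun d => e (g d))^[p + 1] (e d)) := by
      rw [← Function.iterate_add_apply]; congr 1
    rw [← hq, ← h3]
    exact h2.symm
  refine ⟨fun d => k ((fun d => e (g d))^[p] (e d)),
    h1 _ _ hk (h1 _ _ (u2_iter ar f h _ hp p) he.mem), ?_⟩
  intro d
  have := key d
  rw [Function.iterate_succ_apply] at this
  show k ((fun d => e (g d))^[p] (e (g (e d)))) = k (e d)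
  rw [this]

end Pool.Agent.Lib.MP_87d05f_lc.DI
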