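import Pool.Agent.Lib.MP_87d05f_lc.DI.Stm

set_option autoImplicit false

/-!
# An instance whose optimal assignments are exactly the members of `U`
-/

namespace Pool.Agent.Lib.MP_87d05f_lc.DI

open Finset

theorem u4_M {D ι : Type} [Fintype D] [DecidableEq D] {ar : ι → ℕ} (f : Pay D ar)
    (ω : (D → D) → ℚ) (h1 : Dist ω) (i : ι) (x : Fin (ar i) → D) :
    ∑ g, ω g * (f i (fun j => g (x j)) - f i x) =
      ∑ g, ω g * f i (fun j => g (x j)) - f i x := by
  have h2 : ∑ g, ω g * f i x = f i x := by rw [← Finset.sum_mul, h1.2, one_mul]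
  rw [← h2, ← Finset.sum_sub_distrib, h2]
  exact Finset.sum_congr rfl fun g _ => mul_sub _ _ _

theorem u4_feas {D ι : Type} [Fintype D] [DecidableEq D] {ar : ι → ℕ} (f : Pay D ar)
    (ω : (D → D) → ℚ) : (Dist ω ∧ ∀ c : Scp ar D, 0 ≤ ∑ g, ω g *
      (f c.1 (fun j => g (c.2 j)) - f c.1 c.2)) ↔ Pol1 f ω := by
  constructor
  · rintro ⟨h1, h2⟩
    refine ⟨h1, fun i x => ?_⟩
    have h3 := h2 ⟨i, x⟩
    rw [u4_M f ω h1] at h3
    linarith
  · rintro ⟨h1, h2⟩
    refine ⟨h1, fun c => ?_⟩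
    rw [u4_M f ω h1]
    linarith [h2 c.1 c.2]

theorem u4_id {D ι : Type} [Fintype D] [DecidableEq D] {ar : ι → ℕ} (f : Pay D ar) :
    Pol1 f (fun h : D → D => if h = id then (1 : ℚ) else 0) := by
  refine ⟨⟨fun h => ?_, ?_⟩, fun i x => ?_⟩
  · show (0 : ℚ) ≤ if h = id then 1 else 0
    split_ifs
    · exact zero_le_one
    · exact le_refl _
  · rw [Finset.sum_ite_eq' Finset.univ id (fun _ => (1 : ℚ)), if_pos (Finset.mem_univ _)]
  · have h1 : ∀ h : D → D, (if h = id then (1 : ℚ) else 0) * f i (fun j => h (x j)) =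
        if h = id then f i (fun j => h (x j)) else 0 := by
      intro h
      split_ifs
      · exact one_mul _
      · exact zero_mul _
    rw [Finset.sum_congr rfl fun h _ => h1 h,
      Finset.sum_ite_eq' Finset.univ id (fun h => f i (fun j => h (x j))),
      if_pos (Finset.mem_univ _)]
    exact le_refl _

theorem u4 (h : SuppS) : U4S := by
  intro D ι _ _ _ ar f
  obtain ⟨w, hw, hs⟩ := h (D → D) (Scp ar D)
    (fun c g => f c.1 (fun j => g (c.2 j)) - f c.1 c.2)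
    ⟨_, (u4_feas f _).2 (u4_id f)⟩
  refine ⟨w, hw, fun g => ?_⟩
  have hv : ∑ c, w c * (f c.1 (fun j => g (c.2 j)) - f c.1 c.2) = val f w g - val f w id := by
    unfold val
    rw [← Finset.sum_sub_distrib]
    exact Finset.sum_congr rfl fun c _ => mul_sub _ _ _
  obtain ⟨h1, h2⟩ := hs g
  rw [hv] at h1
  rw [hv] at h2
  refine ⟨by linarith, ?_⟩
  rw [← sub_eq_zero, h2]
  constructor
  · rintro ⟨ω, a, b, c⟩
    exact ⟨ω, (u4_feas f ω).1 ⟨a, b⟩, c⟩
  · rintro ⟨ω, a, c⟩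
    obtain ⟨a1, a2⟩ := (u4_feas f ω).2 a
    exact ⟨ω, a1, a2, c⟩

end Pool.Agent.Lib.MP_87d05f_lc.DI
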