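import Mathlib
import Pool.Agent.Lib.MP_87d05f_lc.DI.Stm
import Pool.Agent.Lib.MP_87d05f_lc.DI.Push

set_option autoImplicit false

/-!
# u5: on the core every element is the unique maximum of an expressible unary function
-/

namespace Pool.Agent.Lib.MP_87d05f_lc.DI

open Finset

theorem u5 (h : U4S) : U5S := by
  classical
  intro D ι _ _ _ ar f e he a
  obtain ⟨w, hw, hmax⟩ := h D ι ar f
  let E := Fintype.equivFin D
  let ρ : D → (Fin 1 ⊕ Fin (Fintype.card D)) ⊕ Core e := fun d =>
    if hd : e d = d then
      (if (⟨d, hd⟩ : Core e) = a then Sum.inl (Sum.inl 0) else Sum.inr ⟨d, hd⟩)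
    else Sum.inl (Sum.inr (E d))
  let H : Core e → (Fin (Fintype.card D) → Core e) → D → D := fun x z d =>
    (Sum.elim (Sum.elim (fun _ : Fin 1 => x) z) id (ρ d)).1
  have hρa : ρ a.1 = Sum.inl (Sum.inl 0) := by
    simp only [ρ]
    rw [dif_pos a.2, if_pos trivial]
  have hρx : ∀ x : Core e, x ≠ a → ρ x.1 = Sum.inr x := by
    intro x hx
    simp only [ρ]
    rw [dif_pos x.2, if_neg hx]
  have hρo : ∀ d : D, e d ≠ d → ρ d = Sum.inl (Sum.inr (E d)) := by
    intro d hd
    simp only [ρ]
    rw [dif_neg hd]
  have hne : (Finset.univ : Finset (Fin (Fintype.card D) → Core e)).Nonempty :=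
    ⟨fun _ => a, Finset.mem_univ _⟩
  let u : Core e → ℚ := fun x => Finset.univ.sup' hne (fun z => val f w (H x z))
  refine ⟨u, ?_, ?_⟩
  · refine ⟨Fintype.card D, push ρ w, push_nonneg _ hw, fun x => ?_⟩
    have hval : ∀ z : Fin (Fintype.card D) → Core e,
        val (res f e) (push ρ w) (Sum.elim (Sum.elim x z) id) = val f w (H (x 0) z) := by
      intro z
      rw [val_push]
      show val f w (fun v => (Sum.elim (Sum.elim x z) id (ρ v)).1) = val f w (H (x 0) z)
      congr 1
      funext v
      have hx : x = fun _ : Fin 1 => x 0 := by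
        funext i
        rw [Fin.fin_one_eq_zero i]
      show _ = (Sum.elim (Sum.elim (fun _ : Fin 1 => x 0) z) id (ρ v)).1
      rw [← hx]
    constructor
    · obtain ⟨z, _, hz⟩ := Finset.exists_mem_eq_sup' hne (fun z => val f w (H (x 0) z))
      refine ⟨z, ?_⟩
      show val (res f e) (push ρ w) (Sum.elim (Sum.elim x z) id) = u (x 0)
      rw [hval]
      exact hz.symm
    · rintro _ ⟨z, rfl⟩
      show val (res f e) (push ρ w) (Sum.elim (Sum.elim x z) id) ≤ u (x 0)
      rw [hval]
      exact Finset.le_sup' (fun z => val f w (H (x 0) z)) (Finset.mem_univ z)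
  · intro x hx
    have h1 : u x < val f w id := by
      rw [Finset.sup'_lt_iff]
      intro z _
      refine lt_of_le_of_ne (hmax _).1 fun heq => ?_
      have hU : InU f (H x z) := (hmax _).2.mp heq
      have e1 : H x z x.1 = x.1 := by
        show (Sum.elim (Sum.elim (fun _ : Fin 1 => x) z) id (ρ x.1)).1 = x.1
        rw [hρx x hx]
        rfl
      have e2 : H x z a.1 = x.1 := by
        show (Sum.elim (Sum.elim (fun _ : Fin 1 => x) z) id (ρ a.1)).1 = x.1
        rw [hρa]
        rfl
      have h3 := he.inj _ hU x.1 a.1 (by rw [x.2, a.2, e1, e2])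
      rw [x.2, a.2] at h3
      exact hx (Subtype.ext h3)
    have h2 : val f w id ≤ u a := by
      let z₀ : Fin (Fintype.card D) → Core e := fun i => ⟨e (E.symm i), he.idem _⟩
      have hH : H a z₀ = e := by
        funext d
        show (Sum.elim (Sum.elim (fun _ : Fin 1 => a) z₀) id (ρ d)).1 = e d
        by_cases hd : e d = d
        · by_cases hda : (⟨d, hd⟩ : Core e) = a
          · have hd' : d = a.1 := by rw [← hda]
            rw [hd', hρa]
            exact a.2.symm
          · have := hρx ⟨d, hd⟩ hda
            show (Sum.elim (Sum.elim (fun _ : Fin 1 => a) z₀) id (ρ (⟨d, hd⟩ : Core e).1)).1 = e d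
            rw [this]
            exact hd.symm
        · rw [hρo d hd]
          show e (E.symm (E d)) = e d
          rw [Equiv.symm_apply_apply]
      have h3 : val f w e = val f w id := (hmax e).2.mpr he.mem
      calc val f w id = val f w (H a z₀) := by rw [hH, h3]
        _ ≤ u a := Finset.le_sup' (fun z => val f w (H a z)) (Finset.mem_univ z₀)
    exact lt_of_lt_of_le h1 h2

end Pool.Agent.Lib.MP_87d05f_lc.DI
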