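import Pool.Agent.Lib.MP_87d05f_lc.DI.Stm

/-!
# MP_87d05f_lc, DI: symmetric fractional polymorphisms extend from the core (u7)
-/

set_option autoImplicit false

namespace Pool.Agent.Lib.MP_87d05f_lc.DI

open Finset

/-- the operation `(x, y) ↦ g (h x) (h y)` -/
private def u7_op {D : Type} (e : D → D) (he : ∀ d, e (e d) = e d) (h : D → D)
    (g : Core e → Core e → Core e) (x y : D) : D :=
  (g ⟨e (h x), he (h x)⟩ ⟨e (h y), he (h y)⟩).1

theorem u7 (h : U6S) : U7S := by
  intro D ι _ _ _ ar f e hr hs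
  classical
  obtain ⟨ω₁, ⟨⟨hω0, hω1⟩, hω⟩, hc⟩ := h D ι ar f e hr
  obtain ⟨ω₂, ⟨⟨hν0, hν1⟩, hν⟩, hsym⟩ := hs
  -- push forward
  let ω : (D → D → D) → ℚ := fun G =>
    ∑ h, ∑ g, if u7_op e hr.idem h g = G then ω₁ h * ω₂ g else 0
  have hsum : ∀ F : (D → D → D) → ℚ, ∑ G, ω G * F G =
      ∑ h, ∑ g, ω₁ h * ω₂ g * F (u7_op e hr.idem h g) := by
    intro F
    have h1 : ∀ G, ω G * F G =
        ∑ h, ∑ g, if u7_op e hr.idem h g = G then ω₁ h * ω₂ g * F G else 0 := by
      intro G
      simp only [ω, Finset.sum_mul, ite_mul, zero_mul]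
    rw [Finset.sum_congr rfl fun G _ => h1 G, Finset.sum_comm]
    refine Finset.sum_congr rfl fun h _ => ?_
    rw [Finset.sum_comm]
    refine Finset.sum_congr rfl fun g _ => ?_
    rw [Finset.sum_ite_eq, if_pos (Finset.mem_univ _)]
  refine ⟨ω, ⟨⟨fun G => ?_, ?_⟩, ?_⟩, ?_⟩
  · refine Finset.sum_nonneg fun h _ => Finset.sum_nonneg fun g _ => ?_
    split_ifs
    · exact mul_nonneg (hω0 h) (hν0 g)
    · exact le_refl 0
  · have h1 := hsum fun _ => 1
    simp only [mul_one] at h1
    rw [h1, ← hω1]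
    refine Finset.sum_congr rfl fun h _ => ?_
    rw [← Finset.mul_sum, hν1, mul_one]
  · intro i x y
    rw [hsum fun G => f i (fun j => G (x j) (y j))]
    have hx := hω i x
    have hy := hω i y
    have h1 : ∀ h, ω₁ h * ((f i (fun j => h (x j)) + f i (fun j => h (y j))) / 2) ≤
        ∑ g, ω₁ h * ω₂ g * f i (fun j => u7_op e hr.idem h g (x j) (y j)) := by
      intro h
      by_cases h0 : ω₁ h = 0
      · simp only [h0, zero_mul, Finset.sum_const_zero, le_refl]
      · have h2 := hν i (fun j => ⟨e (h (x j)), hr.idem (h (x j))⟩)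
          (fun j => ⟨e (h (y j)), hr.idem (h (y j))⟩)
        have h3 : ∀ z : Fin (ar i) → D,
            res f e i (fun j => ⟨e (h (z j)), hr.idem (h (z j))⟩) = f i (fun j => h (z j)) := by
          intro z
          show f i (fun j => e (h (z j))) = f i (fun j => h (z j))
          exact congrArg (f i) (funext fun j => hc h h0 (z j))
        rw [h3, h3] at h2
        have h4 := mul_le_mul_of_nonneg_left h2 (hω0 h)
        rw [Finset.mul_sum] at h4
        refine h4.trans (le_of_eq (Finset.sum_congr rfl fun g _ => ?_))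
        rw [← mul_assoc]
        rfl
    refine le_trans ?_ (Finset.sum_le_sum fun h _ => h1 h)
    have h5 : ∑ h, ω₁ h * ((f i (fun j => h (x j)) + f i (fun j => h (y j))) / 2) =
        (∑ h, ω₁ h * f i (fun j => h (x j)) + ∑ h, ω₁ h * f i (fun j => h (y j))) / 2 := by
      rw [← Finset.sum_add_distrib, Finset.sum_div]
      exact Finset.sum_congr rfl fun h _ => by ring
    rw [h5]
    linarith
  · intro G hG x y
    obtain ⟨h, -, hh⟩ := Finset.exists_ne_zero_of_sum_ne_zero hG
    obtain ⟨g, -, hg⟩ := Finset.exists_ne_zero_of_sum_ne_zero hh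
    have h1 : u7_op e hr.idem h g = G := by
      by_contra hne
      exact hg (if_neg hne)
    rw [if_pos h1] at hg
    rw [← h1]
    exact congrArg Subtype.val (hsym g (right_ne_zero_of_mul hg) _ _)

end Pool.Agent.Lib.MP_87d05f_lc.DI
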