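import Mathlib
import Pool.Agent.Lib.MP_87d05f_lc.DI.Stm
import Pool.Agent.Lib.MP_87d05f_lc.DI.Push

set_option autoImplicit false

/-!
# [w0] closure properties of the expressible functions
-/

namespace Pool.Agent.Lib.MP_87d05f_lc.DI

open Finset

theorem w0 : W0S := by
  intro D ι _ _ _ _ ar f
  refine ⟨fun u v hu hv => ex_add hu hv, fun t u ht hu => ex_smul ht hu,
    fun h k hh hk => ex_add hh hk, fun t h ht hh => ex_smul ht hh, fun u hu => ?_,
    fun h hh => ?_, fun h c hh => ?_, fun h u hh hu => ?_⟩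
  · exact ex_comp (m := 2) (fun _ => Sum.inl 0) hu
  · exact ex_comp (m := 2) ![Sum.inl 1, Sum.inl 0] hh
  · exact ex_comp (m := 1) ![Sum.inl 0, Sum.inr c] hh
  · exact ex_max (n := 1) hh fun x => hu (x 0)

end Pool.Agent.Lib.MP_87d05f_lc.DI
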