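import Pool.Agent.Lib.MP_87d05f_lc.DI.Stm

set_option autoImplicit false

namespace Pool.Agent.Lib.MP_87d05f_lc.DI

open Finset

private lemma w1_val {D ι V : Type} [Fintype D] [DecidableEq D] [Fintype ι] [Fintype V]
    {ar : ι → ℕ} (f : Pay D ar) (ω : (D → D → D) → ℚ) (hω : Pol2 f ω) (w : Scp ar V → ℚ)
    (hw : ∀ c, 0 ≤ w c) (a a' : V → D) :
    (val f w a + val f w a') / 2 ≤ ∑ g, ω g * val f w (fun v => g (a v) (a' v)) := by
  have h1 : ∑ g, ω g * val f w (fun v => g (a v) (a' v)) =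
      ∑ c, w c * ∑ g, ω g * f c.1 (fun j => g (a (c.2 j)) (a' (c.2 j))) := by
    unfold val
    simp only [Finset.mul_sum]
    rw [Finset.sum_comm]
    refine Finset.sum_congr rfl fun c _ => Finset.sum_congr rfl fun g _ => ?_
    ring
  rw [h1]
  have h2 : (val f w a + val f w a') / 2 =
      ∑ c, w c * ((f c.1 (fun j => a (c.2 j)) + f c.1 (fun j => a' (c.2 j))) / 2) := by
    unfold val
    rw [← Finset.sum_add_distrib, Finset.sum_div]
    refine Finset.sum_congr rfl fun c _ => ?_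
    ring
  rw [h2]
  refine Finset.sum_le_sum fun c _ => ?_
  exact mul_le_mul_of_nonneg_left (hω.2 c.1 _ _) (hw c)

theorem w1 : W1S := by
  intro D ι _ _ _ ar f ω hω hid h hh x y x' y'
  obtain ⟨r, w, hw, hmax⟩ := hh
  obtain ⟨⟨z, hz⟩, -⟩ := hmax ![x, y]
  obtain ⟨⟨z', hz'⟩, -⟩ := hmax ![x', y']
  simp only [Matrix.cons_val_zero, Matrix.cons_val_one] at hz hz'
  rw [← hz, ← hz']
  refine (w1_val f ω hω w hw _ _).trans ?_
  refine Finset.sum_le_sum fun g _ => ?_
  by_cases hg : ω g = 0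
  · rw [hg]; simp
  refine mul_le_mul_of_nonneg_left ?_ (hω.1.1 g)
  have h3 := (hmax ![g x x', g y y']).2
  simp only [Matrix.cons_val_zero, Matrix.cons_val_one] at h3
  refine h3 ⟨fun i => g (z i) (z' i), ?_⟩
  have h4 : (Sum.elim (Sum.elim ![g x x', g y y'] (fun i => g (z i) (z' i))) id :
      (Fin 2 ⊕ Fin r) ⊕ D → D) =
      fun v => g ((Sum.elim (Sum.elim ![x, y] z) id : (Fin 2 ⊕ Fin r) ⊕ D → D) v)
        ((Sum.elim (Sum.elim ![x', y'] z') id : (Fin 2 ⊕ Fin r) ⊕ D → D) v) := by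
    funext v
    rcases v with (v | v) | v
    · fin_cases v <;> simp
    · simp
    · simp [hid g hg v]
  simp only [h4]

end Pool.Agent.Lib.MP_87d05f_lc.DI
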