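import Mathlib
import Pool.Agent.Lib.MP_87d05f_lc.DI.Stm

set_option autoImplicit false

/-!
# Piece w2: an expressible binary function whose set of maxima is an orbit (helper2)
-/

namespace Pool.Agent.Lib.MP_87d05f_lc.DI

open Finset

section w2aux

variable {D V V' ι : Type} {ar : ι → ℕ}

open Classical in
/-- relabelling the variables of a weighted instance -/
noncomputable def w2_map [Fintype ι] [Fintype V] (τ : V → V') (w : Scp ar V → ℚ) :
    Scp ar V' → ℚ :=
  fun c' => ∑ c, if (⟨c.1, fun j => τ (c.2 j)⟩ : Scp ar V') = c' then w c else 0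

theorem w2_map_nonneg [Fintype ι] [Fintype V] (τ : V → V') (w : Scp ar V → ℚ)
    (hw : ∀ c, 0 ≤ w c) (c' : Scp ar V') : 0 ≤ w2_map τ w c' := by
  classical
  unfold w2_map
  refine Finset.sum_nonneg fun c _ => ?_
  split_ifs
  · exact hw c
  · exact le_rfl

theorem w2_val_map [Fintype ι] [Fintype V] [Fintype V'] (f : Pay D ar) (τ : V → V')
    (w : Scp ar V → ℚ) (a : V' → D) :
    val f (w2_map τ w) a = val f w (fun v => a (τ v)) := by
  classical
  unfold val w2_map
  simp_rw [Finset.sum_mul]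
  rw [Finset.sum_comm]
  refine Finset.sum_congr rfl fun c _ => ?_
  simp only [ite_mul, zero_mul]
  rw [Finset.sum_ite_eq]
  simp

theorem w2_sum {X : Type} [Fintype X] (p : X → Prop) [DecidablePred p]
    (F : X → ℚ) (h : ∀ g, F g ≠ 0 → p g) :
    ∑ g, F g = ∑ g : {g : X // p g}, F g.1 := by
  rw [← Finset.sum_subtype (univ.filter p) (by simp) F]
  rw [Finset.sum_filter_of_ne]
  intro g _ hg
  exact h g hg

end w2aux

theorem w2 (hs : SuppS) (h0 : S0S) : W2S := by
  classical
  intro D ι _ _ _ ar f a b hab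
  obtain ⟨hp1, -, hid, -, ω0, hω0, hω0i, -⟩ := h0 D ι ar f
  -- the feasible distributions
  let X := {g : D → D → D // Idem g}
  let M : Scp ar (D × D) → X → ℚ := fun c g =>
    f c.1 (fun j => g.1 (c.2 j).1 (c.2 j).2) -
      (f c.1 (fun j => (c.2 j).1) + f c.1 (fun j => (c.2 j).2)) / 2
  have key : ∀ ω : (D → D → D) → ℚ, Pol2 f ω → (∀ g, ω g ≠ 0 → Idem g) →
      Dist (fun g : X => ω g.1) ∧ ∀ c, 0 ≤ ∑ g : X, ω g.1 * M c g := by
    intro ω hω hi
    have h1 : ∑ g : X, ω g.1 = 1 := by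
      rw [← w2_sum (fun g : D → D → D => Idem g) ω hi]; exact hω.1.2
    refine ⟨⟨fun g => hω.1.1 g.1, h1⟩, fun c => ?_⟩
    have h2 := hω.2 c.1 (fun j => (c.2 j).1) (fun j => (c.2 j).2)
    rw [w2_sum (fun g : D → D → D => Idem g)
      (fun g => ω g * f c.1 (fun j => g (c.2 j).1 (c.2 j).2))
      (fun g hg => hi g (left_ne_zero_of_mul hg))] at h2
    have h3 : ∑ g : X, ω g.1 * M c g = ∑ g : X, ω g.1 * f c.1 (fun j => g.1 (c.2 j).1 (c.2 j).2)
        - (f c.1 (fun j => (c.2 j).1) + f c.1 (fun j => (c.2 j).2)) / 2 := by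
      simp only [M, mul_sub, Finset.sum_sub_distrib]
      rw [← Finset.sum_mul, h1, one_mul]
    rw [h3]
    linarith
  have key' : ∀ ω : X → ℚ, Dist ω → (∀ c, 0 ≤ ∑ g : X, ω g * M c g) →
      ∀ g : X, 0 < ω g → InS f g.1 := by
    intro ω hω hM g hg
    let ω' : (D → D → D) → ℚ := fun g => if h : Idem g then ω ⟨g, h⟩ else 0
    have hi : ∀ g, ω' g ≠ 0 → Idem g := by
      intro g hg
      by_contra hc
      exact hg (by simp only [ω', dif_neg hc])
    have hv : ∀ g : X, ω' g.1 = ω g := by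
      intro g
      show (if h : Idem g.1 then ω ⟨g.1, h⟩ else 0) = ω g
      rw [dif_pos g.2]
    have hsum : ∀ F : (D → D → D) → ℚ, ∑ g, ω' g * F g = ∑ g : X, ω g * F g.1 := by
      intro F
      rw [w2_sum (fun g : D → D → D => Idem g) (fun g => ω' g * F g)
        (fun g hg => hi g (left_ne_zero_of_mul hg))]
      exact Finset.sum_congr rfl fun g _ => by rw [hv g]
    refine ⟨ω', ⟨⟨fun g => ?_, ?_⟩, fun i x y => ?_⟩, hi, by rw [hv g]; exact hg⟩
    · simp only [ω']
      split_ifs with h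
      · exact hω.1 _
      · exact le_rfl
    · have := hsum (fun _ => 1)
      simp only [mul_one] at this
      rw [this]
      exact hω.2
    · rw [hsum (fun g => f i (fun j => g (x j) (y j)))]
      have h2 := hM ⟨i, fun j => (x j, y j)⟩
      simp only [M, mul_sub, Finset.sum_sub_distrib] at h2
      rw [← Finset.sum_mul, hω.2, one_mul] at h2
      linarith
  obtain ⟨w, hw, hwM⟩ := hs X (Scp ar (D × D)) M ⟨_, (key ω0 hω0 hω0i).1, (key ω0 hω0 hω0i).2⟩
  -- the potential
  let B : ℚ := ∑ c, w c * ((f c.1 (fun j => (c.2 j).1) + f c.1 (fun j => (c.2 j).2)) / 2)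
  have hΦ : ∀ g : X, ∑ c, w c * M c g = val f w (fun p => g.1 p.1 p.2) - B := by
    intro g
    simp only [M, B, val, mul_sub, Finset.sum_sub_distrib]
  have hle : ∀ g : X, val f w (fun p => g.1 p.1 p.2) ≤ B := by
    intro g
    have := (hwM g).1
    rw [hΦ] at this
    linarith
  have heq : ∀ g : X, val f w (fun p => g.1 p.1 p.2) = B ↔ InS f g.1 := by
    intro g
    have h1 := (hwM g).2
    rw [hΦ, sub_eq_zero] at h1
    rw [h1]
    constructor
    · rintro ⟨ω, h2, h3, h4⟩
      exact key' ω h2 h3 g h4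
    · rintro ⟨ω, h2, h3, h4⟩
      exact ⟨fun g => ω g.1, (key ω h2 h3).1, (key ω h2 h3).2, h4⟩
  -- the relabelling
  let r := Fintype.card (D × D)
  let eq : (D × D) ≃ Fin r := Fintype.equivFin (D × D)
  let τ : D × D → (Fin 2 ⊕ Fin r) ⊕ D := fun p =>
    if p.1 = p.2 then Sum.inr p.1 else if p = (a, b) then Sum.inl (Sum.inl 0)
    else if p = (b, a) then Sum.inl (Sum.inl 1) else Sum.inl (Sum.inr (eq p))
  let op : (Fin 2 → D) → (Fin r → D) → D → D → D := fun x z s t =>
    Sum.elim (Sum.elim x z) id (τ (s, t))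
  have hop_id : ∀ x z, Idem (op x z) := by
    intro x z d
    simp [op, τ]
  have hop_ab : ∀ x z, op x z a b = x 0 := by
    intro x z
    simp [op, τ, hab]
  have hop_ba : ∀ x z, op x z b a = x 1 := by
    intro x z
    simp [op, τ, hab.symm]
  have hop_surj : ∀ g : X, op ![g.1 a b, g.1 b a] (fun k => g.1 (eq.symm k).1 (eq.symm k).2) = g.1 := by
    intro g
    funext s t
    by_cases h1 : s = t
    · subst h1
      rw [hop_id, g.2]
    · by_cases h2 : (s, t) = (a, b)
      · obtain ⟨rfl, rfl⟩ := Prod.mk.inj h2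
        rw [hop_ab]; rfl
      · by_cases h3 : (s, t) = (b, a)
        · obtain ⟨rfl, rfl⟩ := Prod.mk.inj h3
          rw [hop_ba]; rfl
        · simp only [op, τ, if_neg h1, if_neg h2, if_neg h3]
          simp
  have hval : ∀ x z, val f (w2_map τ w) (Sum.elim (Sum.elim x z) id) =
      val f w (fun p => op x z p.1 p.2) := by
    intro x z
    rw [w2_val_map]
  have : Nonempty D := ⟨a⟩
  let h : D → D → ℚ := fun x y => Finset.univ.sup' (Finset.univ_nonempty)
    (fun z : Fin r → D => val f w (fun p => op ![x, y] z p.1 p.2))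
  have hmax : ∀ x y, ∃ z, h x y = val f w (fun p => op ![x, y] z p.1 p.2) := by
    intro x y
    obtain ⟨z, -, hz⟩ := Finset.exists_mem_eq_sup' (Finset.univ_nonempty)
      (fun z : Fin r → D => val f w (fun p => op ![x, y] z p.1 p.2))
    exact ⟨z, hz⟩
  have hge : ∀ x y z, val f w (fun p => op ![x, y] z p.1 p.2) ≤ h x y := by
    intro x y z
    exact Finset.le_sup' (fun z : Fin r → D => val f w (fun p => op ![x, y] z p.1 p.2))
      (Finset.mem_univ z)
  have hB : ∀ x y, h x y ≤ B := by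
    intro x y
    obtain ⟨z, hz⟩ := hmax x y
    rw [hz]
    exact hle ⟨op ![x, y] z, hop_id _ _⟩
  have hBiff : ∀ x y, h x y = B ↔ ∃ g, InS f g ∧ g a b = x ∧ g b a = y := by
    intro x y
    constructor
    · intro hxy
      obtain ⟨z, hz⟩ := hmax x y
      refine ⟨op ![x, y] z, ?_, hop_ab _ _, hop_ba _ _⟩
      rw [← heq ⟨op ![x, y] z, hop_id _ _⟩]
      rw [← hxy, hz]
    · rintro ⟨g, hg, rfl, rfl⟩
      refine le_antisymm (hB _ _) ?_
      have h1 := (heq ⟨g, hid g hg⟩).2 hg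
      have h2 := hge (g a b) (g b a) (fun k => g (eq.symm k).1 (eq.symm k).2)
      rw [hop_surj ⟨g, hid g hg⟩] at h2
      rw [← h1]
      exact h2
  have hab' : h a b = B := (hBiff a b).2 ⟨fun x _ => x, hp1, rfl, rfl⟩
  refine ⟨h, ⟨r, w2_map τ w, w2_map_nonneg τ w hw, fun x => ⟨?_, ?_⟩⟩, fun x y => ⟨?_, ?_⟩⟩
  · obtain ⟨z, hz⟩ := hmax (x 0) (x 1)
    refine ⟨z, ?_⟩
    have hx : (![x 0, x 1] : Fin 2 → D) = x := by
      funext i; fin_cases i <;> rfl
    rw [hx] at hz
    show val f (w2_map τ w) (Sum.elim (Sum.elim x z) id) = h (x 0) (x 1)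
    rw [hz, hval]
  · rintro _ ⟨z, rfl⟩
    have hx : (![x 0, x 1] : Fin 2 → D) = x := by
      funext i; fin_cases i <;> rfl
    have := hge (x 0) (x 1) z
    rw [hx] at this
    show val f (w2_map τ w) (Sum.elim (Sum.elim x z) id) ≤ h (x 0) (x 1)
    rw [hval]
    exact this
  · rw [hab']; exact hB x y
  · rw [hab']; exact hBiff x y

end Pool.Agent.Lib.MP_87d05f_lc.DI
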