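import Pool.Agent.Lib.MP_87d05f_lc.DI.Stm

set_option autoImplicit false

namespace Pool.Agent.Lib.MP_87d05f_lc.DI

open Finset

/-- a unary fractional polymorphism improves the value of every assignment in the mean -/
lemma u3_val {D ι V : Type} [Fintype D] [DecidableEq D] [Fintype ι] [Fintype V] {ar : ι → ℕ}
    {f : Pay D ar} {ω : (D → D) → ℚ} (hω : Pol1 f ω) {w : Scp ar V → ℚ} (hw : ∀ c, 0 ≤ w c)
    (g : V → D) : val f w g ≤ ∑ x, ω x * val f w (fun v => x (g v)) := by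
  unfold val
  calc ∑ c, w c * f c.1 (fun j => g (c.2 j))
      ≤ ∑ c, w c * ∑ x, ω x * f c.1 (fun j => x (g (c.2 j))) :=
        Finset.sum_le_sum fun c _ => mul_le_mul_of_nonneg_left (hω.2 c.1 _) (hw c)
    _ = ∑ x, ω x * ∑ c, w c * f c.1 (fun j => x (g (c.2 j))) := by
        simp_rw [Finset.mul_sum]
        rw [Finset.sum_comm]
        refine Finset.sum_congr rfl fun x _ => Finset.sum_congr rfl fun c _ => ?_
        ring

/-- the maximum over the assignments -/
lemma u3_max {P A : Type} [Finite A] (a : A) (vv : P → A → ℚ) :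
    ∃ F : P → ℚ, (∀ p a', vv p a' ≤ F p) ∧ (∀ p, ∃ a', F p = vv p a') ∧
      ∀ p q, vv p = vv q → F p = F q := by
  classical
  have h : ∀ p, ∃ a', ∀ b, vv p b ≤ vv p a' := fun p =>
    haveI : Nonempty A := ⟨a⟩
    Finite.exists_max (vv p)
  choose m hm using h
  refine ⟨fun p => vv p (m p), hm, fun p => ⟨m p, rfl⟩, fun p q hpq => ?_⟩
  refine le_antisymm ?_ ?_
  · show vv p (m p) ≤ vv q (m q)
    rw [hpq]
    exact hm q _
  · show vv q (m q) ≤ vv p (m p)
    rw [← hpq]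
    exact hm p _

/-- the abstract form -/
lemma u3_core (hm : MaxpS) {D A : Type} [Fintype D] [DecidableEq D] (U : (D → D) → Prop)
    (ω : (D → D) → ℚ) (hω : Dist ω) (hU : ∀ x, 0 < ω x ↔ U x) (hid : U id)
    (hcomp : ∀ x y, U x → U y → U (fun d => x (y d))) (e : D → D) (he : U e)
    (hidem : ∀ d, e (e d) = e d)
    (hreach : ∀ k k', U k → U k' → ∃ u, U u ∧ ∀ d, u (k (e d)) = k' (e d))
    (F : (D → D) → ℚ) (vv : (D → D) → A → ℚ) (act : (D → D) → A → A)
    (hle : ∀ p a', vv p a' ≤ F p) (hex : ∀ p, ∃ a', F p = vv p a')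
    (hstep : ∀ p a', vv p a' ≤ ∑ x, ω x * vv (fun d => x (p d)) (act x a')) :
    ∃ a2, ∀ k, U k → F (fun d => k (e d)) = vv e (act e a2) := by
  classical
  have hω0 := hω.1
  have hsub : ∀ p, F p ≤ ∑ x, ω x * F (fun d => x (p d)) := by
    intro p
    obtain ⟨a', h1⟩ := hex p
    rw [h1]
    refine (hstep p a').trans (Finset.sum_le_sum fun x _ => ?_)
    exact mul_le_mul_of_nonneg_left (hle _ _) (hω0 x)
  have hmain : ∀ k, U k → ∀ k', U k' → F (fun d => k (e d)) = F (fun d => k' (e d)) := by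
    have h3 := hm (D → D) (D → D) ω (fun x s => fun d => x (s d))
      {s | ∃ k, U k ∧ s = fun d => k (e d)} F hω (Set.toFinite _) ?_ ?_ ?_
    · intro k hk k' hk'
      exact h3 _ ⟨k, hk, rfl⟩ _ ⟨k', hk', rfl⟩
    · rintro x hx s ⟨k, hk, rfl⟩
      exact ⟨fun d => x (k d), hcomp x k ((hU x).1 hx) hk, rfl⟩
    · rintro s ⟨k, hk, rfl⟩ t ⟨k', hk', rfl⟩
      obtain ⟨u, hu, hu2⟩ := hreach k k' hk hk'
      exact ⟨u, (hU u).2 hu, funext hu2⟩
    · intro s _
      exact hsub s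
  have hee0 : (fun d => e (e d)) = e := funext hidem
  have hFe : ∀ k, U k → F (fun d => k (e d)) = F e := fun k hk => by
    have h1 := hmain k hk e he
    rwa [hee0] at h1
  obtain ⟨a2, ha2⟩ := hex e
  have hterm : ∀ x, 0 ≤ ω x * F (fun d => x (e d)) -
      ω x * vv (fun d => x (e d)) (act x a2) := by
    intro x
    rw [← mul_sub]
    exact mul_nonneg (hω0 x) (sub_nonneg.2 (hle _ _))
  have hsumF : ∑ x, ω x * F (fun d => x (e d)) = F e := by
    have h1 : ∀ x ∈ (Finset.univ : Finset (D → D)), ω x * F (fun d => x (e d)) = ω x * F e := by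
      intro x _
      rcases (hω0 x).eq_or_lt with h3 | h3
      · rw [← h3, zero_mul, zero_mul]
      · rw [hFe x ((hU x).1 h3)]
    rw [Finset.sum_congr rfl h1, ← Finset.sum_mul, hω.2, one_mul]
  have hsum0 : ∑ x, (ω x * F (fun d => x (e d)) -
      ω x * vv (fun d => x (e d)) (act x a2)) = 0 := by
    refine le_antisymm ?_ (Finset.sum_nonneg fun x _ => hterm x)
    rw [Finset.sum_sub_distrib, hsumF, ha2]
    exact sub_nonpos.2 (hstep e a2)
  have hz := (Finset.sum_eq_zero_iff_of_nonneg fun x _ => hterm x).1 hsum0 e (Finset.mem_univ e)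
  have hpe : 0 < ω e := (hU e).2 he
  refine ⟨a2, fun k hk => ?_⟩
  rw [hFe k hk]
  rw [← mul_sub] at hz
  rcases mul_eq_zero.1 hz with h3 | h3
  · exact absurd h3 hpe.ne'
  · have h4 := sub_eq_zero.1 h3
    rwa [hee0] at h4

theorem u3 (hm : MaxpS) (h0 : U0S) (h2 : U2S) : U3S := by
  classical
  intro D ι V _ _ _ _ ar f e he w hw h hh a
  obtain ⟨hid, hcomp, ω, hω, hpos⟩ := h0 D ι ar f
  obtain ⟨vv, hvv⟩ : ∃ vv : (D → D) → (V → D) → ℚ, ∀ p a', vv p a' =
    val f w (Sum.elim a' (fun c : Core e => p c.1)) := ⟨_, fun _ _ => rfl⟩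
  obtain ⟨F, hle, hex, hcongr⟩ := u3_max a vv
  have hcongr' : ∀ p q : D → D, (∀ d, e d = d → p d = q d) → ∀ a', vv p a' = vv q a' := by
    intro p q hpq a'
    have h1 : (fun c : Core e => p c.1) = (fun c : Core e => q c.1) := by
      funext c
      exact hpq c.1 c.2
    rw [hvv, hvv, h1]
  have hstep : ∀ p a', vv p a' ≤ ∑ x, ω x * vv (fun d => x (p d)) (fun v => x (a' v)) := by
    intro p a'
    rw [hvv]
    refine (u3_val hω hw _).trans (le_of_eq ?_)
    refine Finset.sum_congr rfl fun x _ => ?_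
    rw [hvv]
    have h1 : (fun v => x ((Sum.elim a' (fun c : Core e => p c.1)) v)) =
        Sum.elim (fun v => x (a' v)) (fun c : Core e => x (p c.1)) := by
      funext s
      rcases s with s | s <;> rfl
    rw [h1]
  obtain ⟨a2, ha2⟩ := u3_core hm (InU f) ω hω.1 (fun x => ⟨fun hx => ⟨ω, hω, hx⟩, hpos x⟩) hid
    hcomp e he.mem he.idem (h2 D ι ar f e he) F vv (fun x a' v => x (a' v)) hle hex hstep
  refine ⟨fun v => ⟨e (a2 v), he.idem _⟩, ?_⟩
  have h3 : F h = F (fun d => h (e d)) :=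
    hcongr _ _ (funext fun a' => hcongr' _ _ (fun d hd => by rw [hd]) a')
  have h4 := ha2 h hh
  have h5 : vv h a ≤ vv e (fun v => e (a2 v)) := by
    rw [← h4, ← h3]
    exact hle h a
  have h6 : (fun c : Core e => e c.1) = (fun c : Core e => c.1) := funext fun c => c.2
  rw [hvv, hvv, h6] at h5
  exact h5

end Pool.Agent.Lib.MP_87d05f_lc.DI
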