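import Pool.Agent.Lib.MP_87d05f_lc.DI.Stm

set_option autoImplicit false

/-!
# DICHOTOMY: piece s6, the balanced gadget with constants
-/

namespace Pool.Agent.Lib.MP_87d05f_lc.DI

open Finset

theorem s6_single {X : Type} [Fintype X] (F : X → ℚ) (hF : ∀ z, 0 ≤ F z) (z : X) :
    F z ≤ ∑ w, F w :=
  Finset.single_le_sum (fun w _ => hF w) (Finset.mem_univ z)

/-- a large multiplier -/
theorem s6_mult {D : Type} [Fintype D] (k t : D → D → ℚ) :
    ∃ M : ℚ, 0 ≤ M ∧ ∀ x y, 0 < t x y → k x y ≤ M * t x y := by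
  have hF : ∀ z : D × D, 0 ≤ |k z.1 z.2| / |t z.1 z.2| := fun z =>
    div_nonneg (abs_nonneg _) (abs_nonneg _)
  refine ⟨∑ z : D × D, |k z.1 z.2| / |t z.1 z.2|, Finset.sum_nonneg fun z _ => hF z, ?_⟩
  intro x y ht
  have h1 := s6_single (fun z : D × D => |k z.1 z.2| / |t z.1 z.2|) hF (x, y)
  have h2 : k x y / t x y ≤ ∑ z : D × D, |k z.1 z.2| / |t z.1 z.2| := by
    refine le_trans ?_ h1
    show k x y / t x y ≤ |k x y| / |t x y|
    rw [abs_of_pos ht]
    exact div_le_div_of_nonneg_right (le_abs_self _) ht.le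
  exact (div_le_iff₀ ht).1 h2

/-- a unary function with a prescribed difference at two points -/
theorem s6_unary (hw : W0S) {D ι : Type} [Fintype D] [DecidableEq D] [Nonempty D] [Fintype ι]
    {ar : ι → ℕ} (f : Pay D ar) (hU : Uniq f) {p q : D} (hpq : p ≠ q) (c : ℚ) :
    ∃ u, W1 f u ∧ u p - u q = c := by
  obtain ⟨_, c2, _⟩ := hw D ι ar f
  rcases le_total 0 c with hc | hc
  · obtain ⟨v, hv, hmax⟩ := hU p
    have hd : 0 < v p - v q := sub_pos.2 (hmax q hpq.symm)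
    refine ⟨fun x => c / (v p - v q) * v x, c2 _ _ (div_nonneg hc hd.le) hv, ?_⟩
    show c / (v p - v q) * v p - c / (v p - v q) * v q = c
    rw [← mul_sub, div_mul_cancel₀ _ hd.ne']
  · obtain ⟨v, hv, hmax⟩ := hU q
    have hd : 0 < v q - v p := sub_pos.2 (hmax p hpq)
    refine ⟨fun x => (-c) / (v q - v p) * v x, c2 _ _ (div_nonneg (neg_nonneg.2 hc) hd.le) hv, ?_⟩
    show (-c) / (v q - v p) * v p - (-c) / (v q - v p) * v q = c
    have h1 : (-c) / (v q - v p) * v p - (-c) / (v q - v p) * v q =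
        -((-c) / (v q - v p) * (v q - v p)) := by ring
    rw [h1, div_mul_cancel₀ _ hd.ne', neg_neg]

theorem s6 (hw : W0S) (h1 : S1S) (h2 : S2S) (h4 : S4S) (h5 : S5S) : S6S := by
  intro D ι _ _ _ _ ar f hU hns
  have hab : ∃ a b, ∀ g, InS f g → g a b ≠ g b a := by
    by_contra hcon
    apply hns
    apply h1 D ι ar f
    intro a b
    by_contra hcon2
    exact hcon ⟨a, b, fun g hg he => hcon2 ⟨g, hg, he⟩⟩
  obtain ⟨a, b, hab⟩ := hab
  obtain ⟨a', b', hrec⟩ := h2 D ι ar f a b hab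
  obtain ⟨f₀, E, r, R, hf0, hsym, hE, hr, hrmax, hlt⟩ := h4 D ι ar f a' b' hU hrec
  obtain ⟨s, S, p, q, hs, hpE, hqE, hpq, hsmax⟩ := h5 D ι ar f E r R hU hE hr hrmax
  obtain ⟨_, _, c3, c4, c5, c6, _⟩ := hw D ι ar f
  obtain ⟨u, hu, hud⟩ := s6_unary hw f hU hpq ((f₀ q q - f₀ p p) / 2)
  obtain ⟨M, hM, hMle⟩ := s6_mult (fun x y => f₀ x y + (u x + u y) - (f₀ p p + 2 * u p))
    (fun x y => 2 * S - (s x + s y))
  have hC1 : f₀ p p < f₀ p q := hlt p hpE q hqE hpq
  have hC2 : f₀ q q < f₀ p q := by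
    rw [hsym p q]
    exact hlt q hqE p hpE hpq.symm
  have sp : s p = S := (hsmax p).2.2 (Or.inl rfl)
  have sq : s q = S := (hsmax q).2.2 (Or.inr rfl)
  refine ⟨fun x y => f₀ x y + (u x + u y) + M * (s x + s y), p, q,
    f₀ p q + (u p + u q) + M * (2 * S), f₀ p p + 2 * u p + M * (2 * S), ?_, hpq, ?_, ?_, ?_, ?_, ?_,
    ?_⟩
  · exact c3 _ _ (c3 _ _ hf0 (c3 _ _ (c5 u hu) (c6 _ (c5 u hu))))
      (c4 M _ hM (c3 _ _ (c5 s hs) (c6 _ (c5 s hs))))
  · linarith
  · show f₀ p q + (u p + u q) + M * (s p + s q) = f₀ p q + (u p + u q) + M * (2 * S)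
    rw [sp, sq]; ring
  · show f₀ q p + (u q + u p) + M * (s q + s p) = f₀ p q + (u p + u q) + M * (2 * S)
    rw [sp, sq, hsym q p]; ring
  · show f₀ p p + (u p + u p) + M * (s p + s p) = f₀ p p + 2 * u p + M * (2 * S)
    rw [sp]; ring
  · show f₀ q q + (u q + u q) + M * (s q + s q) = f₀ p p + 2 * u p + M * (2 * S)
    rw [sq]
    linarith
  · intro x y hxy
    show f₀ x y + (u x + u y) + M * (s x + s y) ≤ f₀ p p + 2 * u p + M * (2 * S)
    have ht : 0 < 2 * S - (s x + s y) := by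
      have hx := (hsmax x).1
      have hy := (hsmax y).1
      by_cases hx1 : x = p ∨ x = q
      · have hy1 : ¬ (y = p ∨ y = q) := fun hy1 => hxy ⟨hx1, hy1⟩
        have hy2 : s y ≠ S := fun h => hy1 ((hsmax y).2.1 h)
        have hy3 : s y < S := lt_of_le_of_ne hy hy2
        linarith
      · have hx2 : s x ≠ S := fun h => hx1 ((hsmax x).2.1 h)
        have hx3 : s x < S := lt_of_le_of_ne hx hx2
        linarith
    have h6 := hMle x y ht
    have h7 : f₀ x y + (u x + u y) - (f₀ p p + 2 * u p) ≤ M * (2 * S - (s x + s y)) := h6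
    have h8 : M * (2 * S - (s x + s y)) = M * (2 * S) - M * (s x + s y) := by ring
    linarith

end Pool.Agent.Lib.MP_87d05f_lc.DI
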