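import Pool.Agent.Lib.MP_87d05f_lc.DI.Stm

set_option autoImplicit false

/-!
# [u6] unary fractional polymorphism with values in the core
-/

namespace Pool.Agent.Lib.MP_87d05f_lc.DI

open Finset

/-- relabelled instance: the variables `V` become the variables `W` along `j` -/
theorem u6_push {D ι V W : Type} [Fintype ι] [Fintype V] [Fintype W] (ar : ι → ℕ)
    (f : Pay D ar) (j : V → W) (w : Scp ar V → ℚ) (hw : ∀ c, 0 ≤ w c) :
    ∃ w' : Scp ar W → ℚ, (∀ c, 0 ≤ w' c) ∧ ∀ a : W → D, val f w' a = val f w (fun v => a (j v)) := by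
  classical
  refine ⟨fun c => ∑ c₀ : Scp ar V, if (⟨c₀.1, fun t => j (c₀.2 t)⟩ : Scp ar W) = c then w c₀
    else 0, ?_, ?_⟩
  · intro c
    apply Finset.sum_nonneg
    intro c₀ _
    split_ifs
    · exact hw c₀
    · exact le_refl 0
  · intro a
    unfold val
    simp only [Finset.sum_mul]
    rw [Finset.sum_comm]
    apply Finset.sum_congr rfl
    intro c₀ _
    rw [Finset.sum_eq_single (⟨c₀.1, fun t => j (c₀.2 t)⟩ : Scp ar W)]
    · rw [if_pos rfl]
    · intro c _ hc
      rw [if_neg (fun h => hc h.symm), zero_mul]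
    · intro h
      exact absurd (Finset.mem_univ _) h

/-- [u6] There is a unary fractional polymorphism with values in the core. -/
theorem u6 (hg : GordanS) (h0 : U0S) (h3 : U3S) : U6S := by
  intro D ι _ _ _ ar f e he
  classical
  by_contra hcon
  let P : (D → D) → Prop := fun h => ∀ d, e (h d) = h d
  let M : Scp ar D → {h : D → D // P h} → ℚ := fun c h => f c.1 (fun t => h.1 (c.2 t)) - f c.1 c.2
  have hno : ¬ ∃ ω : {h : D → D // P h} → ℚ, Dist ω ∧ ∀ c, 0 ≤ ∑ x, ω x * M c x := by
    rintro ⟨ω, ⟨hω0, hω1⟩, hω2⟩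
    apply hcon
    let ω' : (D → D) → ℚ := fun h => if hh : P h then ω ⟨h, hh⟩ else 0
    have hpos : ∀ x : {h : D → D // P h}, ω' x.1 = ω x := fun x => dif_pos x.2
    have hsum : ∀ G : (D → D) → ℚ, ∑ h, ω' h * G h = ∑ x : {h : D → D // P h}, ω x * G x.1 := by
      intro G
      have h1 : ∑ h, ω' h * G h = ∑ h ∈ univ.filter P, ω' h * G h := by
        symm
        apply Finset.sum_subset (Finset.filter_subset _ _)
        intro h _ hh
        have hn : ¬ P h := fun hP => hh (Finset.mem_filter.mpr ⟨Finset.mem_univ _, hP⟩)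
        have h2 : ω' h = 0 := dif_neg hn
        rw [h2, zero_mul]
      rw [h1, Finset.sum_subtype (p := P) (univ.filter P) (by simp)]
      exact Finset.sum_congr rfl fun x _ => by rw [hpos]
    refine ⟨ω', ⟨⟨?_, ?_⟩, ?_⟩, ?_⟩
    · intro h
      by_cases hh : P h
      · have h2 : ω' h = ω ⟨h, hh⟩ := dif_pos hh
        rw [h2]; exact hω0 _
      · have h2 : ω' h = 0 := dif_neg hh
        rw [h2]
    · have h1 := hsum (fun _ => 1)
      simp only [mul_one] at h1
      rw [h1, hω1]
    · intro i x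
      have h1 := hω2 ⟨i, x⟩
      have h2 : ∑ y : {h : D → D // P h}, ω y * M ⟨i, x⟩ y =
          ∑ y : {h : D → D // P h}, ω y * f i (fun t => y.1 (x t)) - f i x := by
        calc ∑ y : {h : D → D // P h}, ω y * M ⟨i, x⟩ y
            = ∑ y : {h : D → D // P h}, (ω y * f i (fun t => y.1 (x t)) - ω y * f i x) :=
              Finset.sum_congr rfl fun y _ => mul_sub _ _ _
          _ = ∑ y : {h : D → D // P h}, ω y * f i (fun t => y.1 (x t)) - f i x := by
              rw [Finset.sum_sub_distrib, ← Finset.sum_mul, hω1, one_mul]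
      rw [hsum (fun h => f i (fun t => h (x t)))]
      linarith
    · intro h hh
      by_contra hP
      exact hh (dif_neg hP)
  obtain ⟨w, hw0, hw⟩ := hg {h : D → D // P h} (Scp ar D) M hno
  obtain ⟨w', hw'0, hw'⟩ := u6_push (W := D ⊕ Core e) ar f Sum.inl w hw0
  obtain ⟨b, hb⟩ := h3 D ι D ar f e he w' hw'0 id (h0 D ι ar f).1 id
  rw [hw', hw'] at hb
  have h1 := hw ⟨fun d => (b d).1, fun d => (b d).2⟩
  have h2 : ∑ c, w c * M c ⟨fun d => (b d).1, fun d => (b d).2⟩ =
      val f w (fun d => (b d).1) - val f w id := by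
    unfold val
    rw [← Finset.sum_sub_distrib]
    exact Finset.sum_congr rfl fun c _ => mul_sub _ _ _
  rw [h2] at h1
  have h3 : val f w (fun v => Sum.elim id (fun c : Core e => id c.1) (Sum.inl v)) = val f w id :=
    rfl
  have h4 : val f w (fun v => Sum.elim (fun v => (b v).1) (fun c : Core e => c.1) (Sum.inl v)) =
      val f w (fun d => (b d).1) := rfl
  rw [h3, h4] at hb
  linarith

end Pool.Agent.Lib.MP_87d05f_lc.DI
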